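import Pool.Agent.H793.AB.Defs

set_option autoImplicit false

open Set Metric Topology Finset
open scoped Pointwise unitInterval

namespace Pool.Agent.H793.AB

universe u

variable {G : Type u} [AddCommGroup G] [Fintype G] [DecidableEq G]

/-- A1: counting representations by characters -/
theorem rep_of_small (B : Finset G) (hB : B.Nonempty) (m : ℕ) (hm : 1 ≤ m)
    (hcard : Fintype.card G ≤ 2 ^ m)
    (h : ∀ χ : AddChar G ℂ, χ ≠ 1 → ‖∑ b ∈ B, χ b‖ ≤ (B.card : ℝ) / 2) (g : G) :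
    ∃ f : Fin m → G, (∀ i, f i ∈ B) ∧ ∑ i, f i = g := by
  classical
  by_contra hcon
  push Not at hcon
  -- the double sum vanishes
  have h0 : ∑ f ∈ Fintype.piFinset (fun _ : Fin m => B), ∑ χ : AddChar G ℂ,
      χ (∑ i, f i - g) = 0 := by
    refine Finset.sum_eq_zero fun f hf => ?_
    have hf' : ∀ i, f i ∈ B := fun i => Fintype.mem_piFinset.1 hf i
    rw [AddChar.sum_apply_eq_ite, if_neg]
    intro h1
    exact hcon f hf' (sub_eq_zero.1 h1)
  rw [Finset.sum_comm] at h0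
  have h1 : ∀ χ : AddChar G ℂ, ∑ f ∈ Fintype.piFinset (fun _ : Fin m => B), χ (∑ i, f i - g) =
      χ (-g) * (∑ b ∈ B, χ b) ^ m := by
    intro χ
    have e1 : (∑ b ∈ B, χ b) ^ m = ∑ f ∈ Fintype.piFinset (fun _ : Fin m => B), ∏ i, χ (f i) := by
      rw [← Finset.prod_univ_sum]
      simp
    have hprod : ∀ f : Fin m → G, χ (∑ i, f i) = ∏ i, χ (f i) := by
      intro f
      have h9 := map_prod χ.toMonoidHom (fun i => Multiplicative.ofAdd (f i)) Finset.univ
      rw [← ofAdd_sum] at h9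
      exact h9
    rw [e1, Finset.mul_sum]
    refine Finset.sum_congr rfl fun f _ => ?_
    rw [sub_eq_add_neg, AddChar.map_add_eq_mul, hprod f, mul_comm]
  simp only [h1] at h0
  rw [← Finset.add_sum_erase _ _ (Finset.mem_univ (1 : AddChar G ℂ))] at h0
  have h2 : (1 : AddChar G ℂ) (-g) * (∑ b ∈ B, (1 : AddChar G ℂ) b) ^ m = (B.card : ℂ) ^ m := by
    simp
  rw [h2] at h0
  have h3 : ((B.card : ℂ)) ^ m = -∑ χ ∈ Finset.univ.erase (1 : AddChar G ℂ),
      χ (-g) * (∑ b ∈ B, χ b) ^ m := eq_neg_of_add_eq_zero_left h0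
  have hBpos : (0 : ℝ) < B.card := by exact_mod_cast hB.card_pos
  have h4 : ((B.card : ℝ)) ^ m ≤ ∑ χ ∈ Finset.univ.erase (1 : AddChar G ℂ),
      ((B.card : ℝ) / 2) ^ m := by
    calc ((B.card : ℝ)) ^ m = ‖((B.card : ℂ)) ^ m‖ := by
          rw [norm_pow, Complex.norm_natCast]
      _ = ‖∑ χ ∈ Finset.univ.erase (1 : AddChar G ℂ), χ (-g) * (∑ b ∈ B, χ b) ^ m‖ := by
          rw [h3, norm_neg]
      _ ≤ ∑ χ ∈ Finset.univ.erase (1 : AddChar G ℂ), ‖χ (-g) * (∑ b ∈ B, χ b) ^ m‖ :=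
          norm_sum_le _ _
      _ ≤ _ := by
          refine Finset.sum_le_sum fun χ hχ => ?_
          rw [norm_mul, norm_pow, AddChar.norm_apply, one_mul]
          exact pow_le_pow_left₀ (norm_nonneg _) (h χ (Finset.ne_of_mem_erase hχ)) m
  rw [Finset.sum_const, Finset.card_erase_of_mem (Finset.mem_univ _), Finset.card_univ,
    AddChar.card_eq, nsmul_eq_mul, div_pow] at h4
  have hG : 1 ≤ Fintype.card G := Fintype.card_pos
  have h5 : ((Fintype.card G - 1 : ℕ) : ℝ) < 2 ^ m := by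
    have h6 : Fintype.card G - 1 < 2 ^ m := by omega
    exact_mod_cast h6
  have h7 : (0 : ℝ) < (B.card : ℝ) ^ m := by positivity
  have h8 : ((Fintype.card G - 1 : ℕ) : ℝ) * ((B.card : ℝ) ^ m / 2 ^ m) < (B.card : ℝ) ^ m := by
    rw [mul_div_assoc', div_lt_iff₀ (by positivity)]
    nlinarith
  linarith

end Pool.Agent.H793.AB
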