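import Pool.Agent.H793.AB.Defs

set_option autoImplicit false

open Set Metric Topology Finset
open scoped Pointwise unitInterval

namespace Pool.Agent.H793.AB

universe u

variable {G : Type u} [AddCommGroup G] [Fintype G] [DecidableEq G]

/-- A2: a radius with slow growth -/
theorem slow_growth (S : Finset G) (h0 : (0 : G) ∈ S) (N : ℕ)
    (hN : (Fintype.card G : ℝ) < (5 / 4 : ℝ) ^ (N + 1)) :
    ∃ n ≤ N, (((n + 1) • S).card : ℝ) ≤ 5 / 4 * ((n • S).card : ℝ) := by
  by_contra hcon
  push Not at hcon
  have key : ∀ k, k ≤ N + 1 → (5 / 4 : ℝ) ^ k ≤ ((k • S).card : ℝ) := by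
    intro k
    induction k with
    | zero => intro _; simp
    | succ k ih =>
      intro hk
      have h1 := ih (by omega)
      have h2 := hcon k (by omega)
      rw [pow_succ]
      nlinarith
  have h1 := key (N + 1) le_rfl
  have h2 : (((N + 1) • S).card : ℝ) ≤ Fintype.card G := by
    exact_mod_cast Finset.card_le_univ _
  linarith

end Pool.Agent.H793.AB
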