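import Pool.Agent.H793.AB.Defs

set_option autoImplicit false

open Set Metric Topology Finset
open scoped Pointwise unitInterval

namespace Pool.Agent.H793.AB

universe u

variable {G : Type u} [AddCommGroup G] [Fintype G] [DecidableEq G]

/-- A3: slow growth makes the character sums small -/
theorem char_sum_small (S : Finset G) (h0 : (0 : G) ∈ S) (n : ℕ)
    (hn : (((n + 1) • S).card : ℝ) ≤ 5 / 4 * ((n • S).card : ℝ)) (χ : AddChar G ℂ) (s : G)
    (hs : s ∈ S) (hχ : 1 ≤ ‖1 - χ s‖) :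
    ‖∑ b ∈ n • S, χ b‖ ≤ ((n • S).card : ℝ) / 2 := by
  have hsucc : (n + 1) • S = n • S + S := succ_nsmul S n
  have hinj : Function.Injective fun b : G => b + s := add_left_injective s
  obtain ⟨C, hC⟩ : ∃ C : Finset G, C = (n • S).image (fun b => b + s) := ⟨_, rfl⟩
  have hCcard : C.card = (n • S).card := by
    rw [hC]
    exact Finset.card_image_of_injective _ hinj
  have hBsub : n • S ⊆ (n + 1) • S := by
    rw [hsucc]
    intro b hb
    exact Finset.mem_add.2 ⟨b, hb, 0, h0, add_zero b⟩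
  have hCsub : C ⊆ (n + 1) • S := by
    rw [hsucc, hC]
    intro b hb
    obtain ⟨a, ha, rfl⟩ := Finset.mem_image.1 hb
    exact Finset.mem_add.2 ⟨a, ha, s, hs, rfl⟩
  have hCB : (C \ (n • S)).card + (n • S).card ≤ ((n + 1) • S).card := by
    rw [← Finset.card_union_of_disjoint Finset.sdiff_disjoint]
    exact Finset.card_le_card (Finset.union_subset (Finset.sdiff_subset.trans hCsub) hBsub)
  have hBC : ((n • S) \ C).card = (C \ (n • S)).card := Finset.card_sdiff_comm hCcard.symm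
  have hsumC : ∑ c ∈ C, χ c = χ s * ∑ b ∈ n • S, χ b := by
    rw [hC, Finset.sum_image (fun a _ b _ h => hinj h), Finset.mul_sum]
    refine Finset.sum_congr rfl fun b _ => ?_
    rw [AddChar.map_add_eq_mul, mul_comm]
  have hid : (1 - χ s) * ∑ b ∈ n • S, χ b =
      ∑ b ∈ (n • S) \ C, χ b - ∑ c ∈ C \ (n • S), χ c := by
    rw [Finset.sum_sdiff_sub_sum_sdiff, hsumC]
    ring
  have hbd : ∀ T : Finset G, ‖∑ b ∈ T, χ b‖ ≤ (T.card : ℝ) := fun T => by
    refine (norm_sum_le _ _).trans ?_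
    simp [AddChar.norm_apply]
  have h1 : ‖(1 - χ s) * ∑ b ∈ n • S, χ b‖ ≤
      (((n • S) \ C).card : ℝ) + ((C \ (n • S)).card : ℝ) := by
    rw [hid]
    exact (norm_sub_le _ _).trans (add_le_add (hbd _) (hbd _))
  rw [norm_mul, hBC] at h1
  have h2 : ((C \ (n • S)).card : ℝ) + ((n • S).card : ℝ) ≤ (((n + 1) • S).card : ℝ) := by
    exact_mod_cast hCB
  have h3 : ‖∑ b ∈ n • S, χ b‖ ≤ ‖1 - χ s‖ * ‖∑ b ∈ n • S, χ b‖ :=
    le_mul_of_one_le_left (norm_nonneg _) hχ
  linarith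

end Pool.Agent.H793.AB
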