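import Pool.Agent.H793.AB.Al1
import Pool.Agent.H793.AB.Al2
import Pool.Agent.H793.AB.Al3

set_option autoImplicit false

open Set Metric Topology Finset
open scoped Pointwise unitInterval

namespace Pool.Agent.H793.AB

universe u

variable {G : Type u} [AddCommGroup G] [Fintype G] [DecidableEq G]

/-- A4: the algebraic bound -/
theorem alg_bound (S : Finset G) (h0 : (0 : G) ∈ S)
    (hS : ∀ χ : AddChar G ℂ, χ ≠ 1 → ∃ s ∈ S, 1 ≤ ‖1 - χ s‖) :
    ∃ K : ℕ, (K : ℝ) ≤ 20 * (1 + Real.log (Fintype.card G)) ^ 2 ∧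
      ∀ g : G, ∃ f : Fin K → G, (∀ i, f i ∈ S) ∧ ∑ i, f i = g := by
  have hc0 : 0 < Fintype.card G := Fintype.card_pos
  have hc1 : (1 : ℝ) ≤ (Fintype.card G : ℝ) := by exact_mod_cast hc0
  have hcR : (0 : ℝ) < (Fintype.card G : ℝ) := by linarith
  have hL : 0 ≤ Real.log (Fintype.card G) := Real.log_nonneg hc1
  have h54 : (1 / 5 : ℝ) ≤ Real.log (5 / 4) := by
    have := Real.one_sub_inv_le_log_of_pos (show (0 : ℝ) < 5 / 4 by norm_num)
    norm_num at this
    linarith
  have h54p : (0 : ℝ) < Real.log (5 / 4) := by linarith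
  set N : ℕ := ⌊Real.log (Fintype.card G) / Real.log (5 / 4)⌋₊ with hNdef
  have hN : (Fintype.card G : ℝ) < (5 / 4 : ℝ) ^ (N + 1) := by
    have h1 : Real.log (Fintype.card G) / Real.log (5 / 4) < N + 1 := Nat.lt_floor_add_one _
    rw [div_lt_iff₀ h54p] at h1
    rw [← Real.log_lt_log_iff hcR (by positivity), Real.log_pow]
    push_cast
    exact h1
  obtain ⟨n, hnN, hn⟩ := slow_growth S h0 N hN
  have hNle : (N : ℝ) ≤ 5 * Real.log (Fintype.card G) := by
    have h1 : (N : ℝ) ≤ Real.log (Fintype.card G) / Real.log (5 / 4) :=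
      Nat.floor_le (div_nonneg hL h54p.le)
    rw [le_div_iff₀ h54p] at h1
    have h2 : (N : ℝ) * (1 / 5) ≤ N * Real.log (5 / 4) :=
      mul_le_mul_of_nonneg_left h54 (Nat.cast_nonneg N)
    linarith
  set m : ℕ := Nat.log 2 (Fintype.card G) + 1 with hmdef
  have hm : Fintype.card G ≤ 2 ^ m := (Nat.lt_pow_succ_log_self (by norm_num) _).le
  have hmle : ((m : ℕ) : ℝ) ≤ 1 + 2 * Real.log (Fintype.card G) := by
    have h1 : (2 : ℝ) ^ Nat.log 2 (Fintype.card G) ≤ (Fintype.card G : ℝ) := by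
      exact_mod_cast Nat.pow_log_le_self 2 hc0.ne'
    have h2 := Real.log_le_log (by positivity) h1
    rw [Real.log_pow] at h2
    have h3 : (1 / 2 : ℝ) ≤ Real.log 2 := by
      have := Real.log_two_gt_d9
      linarith
    have h4 : (Nat.log 2 (Fintype.card G) : ℝ) * (1 / 2) ≤
        (Nat.log 2 (Fintype.card G) : ℝ) * Real.log 2 :=
      mul_le_mul_of_nonneg_left h3 (Nat.cast_nonneg _)
    rw [hmdef]
    push_cast
    linarith
  have hB : (n • S).Nonempty := ⟨n • (0 : G), Finset.nsmul_mem_nsmul h0⟩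
  have hrep := rep_of_small (n • S) hB m (Nat.le_add_left 1 _) hm (fun χ hχ => by
    obtain ⟨s, hs, h1⟩ := hS χ hχ
    exact char_sum_small S h0 n hn χ s hs h1)
  refine ⟨m * n, ?_, fun g => ?_⟩
  · push_cast
    have hnR : (n : ℝ) ≤ 5 * Real.log (Fintype.card G) := by
      have : (n : ℝ) ≤ N := by exact_mod_cast hnN
      linarith
    have h5 : (m : ℝ) * n ≤ (1 + 2 * Real.log (Fintype.card G)) * (5 * Real.log (Fintype.card G)) :=
      mul_le_mul hmle hnR (Nat.cast_nonneg n) (by linarith)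
    nlinarith [mul_nonneg hL hL]
  · obtain ⟨F, hF, hsum⟩ := hrep g
    have hF' : ∀ i, ∃ f : Fin n → G, (∀ j, f j ∈ S) ∧ ∑ j, f j = F i := by
      intro i
      obtain ⟨f, hf⟩ := Finset.mem_nsmul.1 (hF i)
      refine ⟨fun j => (f j : G), fun j => (f j).2, ?_⟩
      rw [← hf, List.sum_ofFn]
    choose f hf1 hf2 using hF'
    refine ⟨fun k => f (finProdFinEquiv.symm k).1 (finProdFinEquiv.symm k).2,
      fun k => hf1 _ _, ?_⟩
    rw [← hsum, ← Equiv.sum_comp finProdFinEquiv, Fintype.sum_prod_type]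
    refine Finset.sum_congr rfl fun i _ => ?_
    rw [← hf2 i]
    refine Finset.sum_congr rfl fun j _ => ?_
    rw [Equiv.symm_apply_apply]

end Pool.Agent.H793.AB
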