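import Pool.Agent.H793.AB.Cl

set_option autoImplicit false

open Set Metric Topology Finset
open scoped Pointwise unitInterval

namespace Pool.Agent.H793.AB

universe u

variable {X : Type u} [MetricSpace X]

/-- T4: local additivity -/
theorem hc_coc {δ ε : ℝ} (hε : 0 < ε) (hεδ : 4 * ε ≤ δ) (hS : Small X δ) {x₀ : X}
    (c : ∀ x, Path x₀ x) (q : ∀ x y, Path x y)
    (hq : ∀ x y, dist x y < ε → ∀ t, dist x (q x y t) < 2 * ε) (x y z : X) (hxy : dist x y < ε)
    (hyz : dist y z < ε) (hxz : dist x z < ε) :
    hc c (q x z) = hc c (q x y) + hc c (q y z) := by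
  obtain ⟨l, hl⟩ : ∃ l : Path x x, l = ((q x y).trans (q y z)).trans (q x z).symm := ⟨_, rfl⟩
  have h1 : ∀ t, dist x (l t) < δ := by
    intro t
    have ht : l t ∈ Set.range l := ⟨t, rfl⟩
    rw [hl, Path.trans_range, Path.trans_range, Path.symm_range] at ht
    rw [hl]
    rcases ht with (⟨s, hs⟩ | ⟨s, hs⟩) | ⟨s, hs⟩
    · rw [← hs]
      have h := hq x y hxy s
      linarith
    · rw [← hs]
      have h := hq y z hyz s
      have h' := dist_triangle x y (q y z s)
      linarith
    · rw [← hs]
      have h := hq x z hxz s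
      linarith
  have h3 := hc_homotopic c (hS x l h1)
  rw [hl, hc_trans, hc_trans, hc_symm] at h3
  have h4 : hc c (Path.refl x) = 0 := by
    have h5 := hc_homotopic c (γ := (Path.refl x).trans (Path.refl x)) (γ' := Path.refl x)
      (by rw [Path.refl_trans_refl])
    rw [hc_trans] at h5
    exact add_eq_left.1 h5
  rw [h4, add_neg_eq_zero] at h3
  exact h3.symm

end Pool.Agent.H793.AB
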