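import Pool.Agent.H793.AB.Defs

set_option autoImplicit false

open Set Metric Topology Finset
open scoped Pointwise unitInterval

namespace Pool.Agent.H793.AB

universe u

variable {X : Type u} [MetricSpace X]

/-- T0 -/
theorem dist_le_len {x y : X} (γ : Path x y) (s t : I) :
    ENNReal.ofReal (dist (γ s) (γ t)) ≤ len γ := by
  rw [← edist_dist]
  exact eVariationOn.edist_le (fun t : I => γ t) (Set.mem_univ s) (Set.mem_univ t)

/-- the point `1 / 2` -/
noncomputable def lnHalf : I := ⟨1 / 2, by norm_num, by norm_num⟩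

/-- the first reparametrization `t ↦ 2 t` -/
noncomputable def lnA (t : I) : I := Set.projIcc (0 : ℝ) 1 zero_le_one (2 * (t : ℝ))

/-- the second reparametrization `t ↦ 2 t - 1` -/
noncomputable def lnB (t : I) : I := Set.projIcc (0 : ℝ) 1 zero_le_one (2 * (t : ℝ) - 1)

theorem lnA_mono : Monotone lnA := by
  intro s t h
  exact Set.monotone_projIcc _ (by have : (s : ℝ) ≤ t := h; linarith)

theorem lnB_mono : Monotone lnB := by
  intro s t h
  exact Set.monotone_projIcc _ (by have : (s : ℝ) ≤ t := h; linarith)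

theorem lnA_image : lnA '' Set.Iic lnHalf = Set.univ := by
  refine Set.eq_univ_of_forall fun s => ?_
  have h0 := s.2.1
  have h1 := s.2.2
  refine ⟨⟨(s : ℝ) / 2, by linarith, by linarith⟩, ?_, ?_⟩
  · show (s : ℝ) / 2 ≤ 1 / 2
    linarith
  · have h2 : (2 : ℝ) * ((s : ℝ) / 2) = s := by ring
    unfold lnA
    simp only [h2]
    exact Set.projIcc_val _ s

theorem lnB_image : lnB '' Set.Ici lnHalf = Set.univ := by
  refine Set.eq_univ_of_forall fun s => ?_
  have h0 := s.2.1
  have h1 := s.2.2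
  refine ⟨⟨((s : ℝ) + 1) / 2, by linarith, by linarith⟩, ?_, ?_⟩
  · show (1 : ℝ) / 2 ≤ ((s : ℝ) + 1) / 2
    linarith
  · have h2 : (2 : ℝ) * (((s : ℝ) + 1) / 2) - 1 = s := by ring
    unfold lnB
    simp only [h2]
    exact Set.projIcc_val _ s

theorem len_trans {x y z : X} (γ : Path x y) (γ' : Path y z) :
    len (γ.trans γ') = len γ + len γ' := by
  have hu : (Set.univ : Set I) = Set.Iic lnHalf ∪ Set.Ici lnHalf := by
    ext t
    simp
  unfold len
  rw [hu, eVariationOn.union (x := lnHalf) _ ⟨Set.mem_Iic.2 le_rfl, fun t ht => ht⟩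
    ⟨Set.mem_Ici.2 le_rfl, fun t ht => ht⟩, ← hu]
  congr 1
  · have h1 : EqOn (fun t : I => (γ.trans γ') t) ((fun t : I => γ t) ∘ lnA) (Set.Iic lnHalf) := by
      intro t ht
      have ht' : (t : ℝ) ≤ 1 / 2 := ht
      have h0 := t.2.1
      show (γ.trans γ') t = γ (lnA t)
      rw [Path.trans_apply, dif_pos ht']
      congr 1
      unfold lnA
      rw [Set.projIcc_of_mem _ (show 2 * (t : ℝ) ∈ Set.Icc (0 : ℝ) 1 from ⟨by linarith, by linarith⟩)]
    rw [eVariationOn.eq_of_eqOn h1, eVariationOn.comp_eq_of_monotoneOn _ _ (lnA_mono.monotoneOn _),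
      lnA_image]
  · have h1 : EqOn (fun t : I => (γ.trans γ') t) ((fun t : I => γ' t) ∘ lnB) (Set.Ici lnHalf) := by
      intro t ht
      have ht' : 1 / 2 ≤ (t : ℝ) := ht
      have h0 := t.2.2
      show (γ.trans γ') t = γ' (lnB t)
      rw [Path.trans_apply]
      split_ifs with h
      · have h2 : (t : ℝ) = 1 / 2 := le_antisymm h ht'
        have h3 : lnB t = 0 := by
          unfold lnB
          rw [h2]
          exact Set.projIcc_of_le_left _ (by norm_num)
        have h4 : (⟨2 * (t : ℝ), (unitInterval.mul_pos_mem_iff zero_lt_two).2 ⟨t.2.1, h⟩⟩ : I) = 1 := by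
          apply Subtype.ext
          show 2 * (t : ℝ) = 1
          rw [h2]
          norm_num
        rw [h3, h4, γ.target, γ'.source]
      · congr 1
        unfold lnB
        rw [Set.projIcc_of_mem _
          (show 2 * (t : ℝ) - 1 ∈ Set.Icc (0 : ℝ) 1 from ⟨by linarith, by linarith⟩)]
    rw [eVariationOn.eq_of_eqOn h1, eVariationOn.comp_eq_of_monotoneOn _ _ (lnB_mono.monotoneOn _),
      lnB_image]

theorem len_symm {x y : X} (γ : Path x y) : len γ.symm = len γ := by
  unfold len
  have h1 : (fun t : I => γ.symm t) = (fun t : I => γ t) ∘ unitInterval.symm := by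
    funext t
    rfl
  have h2 : AntitoneOn (unitInterval.symm : I → I) Set.univ := by
    intro s _ t _ h
    show (1 : ℝ) - t ≤ 1 - s
    have : (s : ℝ) ≤ t := h
    linarith
  rw [h1, eVariationOn.comp_eq_of_antitoneOn _ _ h2]
  congr 1
  refine Set.eq_univ_of_forall fun s => ⟨unitInterval.symm s, Set.mem_univ _, ?_⟩
  exact unitInterval.symm_symm s

theorem len_refl (x : X) : len (Path.refl x) = 0 := by
  unfold len
  refine eVariationOn.constant_on ?_
  rintro _ ⟨s, _, rfl⟩ _ ⟨t, _, rfl⟩
  rfl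

end Pool.Agent.H793.AB
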