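import Pool.Agent.H793.AB.Cl

set_option autoImplicit false

open Set Metric Topology Finset
open scoped Pointwise unitInterval

namespace Pool.Agent.H793.AB

universe u

variable {X : Type u} [MetricSpace X]

theorem pc_hc_cast {x₀ : X} (c : ∀ x, Path x₀ x) {x y x' y' : X} (hx : x' = x) (hy : y' = y)
    (γ : Path x y) : hc c (γ.cast hx hy) = hc c γ := by
  subst hx hy
  rfl

theorem pc_hc_refl {x₀ : X} (c : ∀ x, Path x₀ x) (x : X) : hc c (Path.refl x) = 0 := by
  have h := hc_trans c (Path.refl x) (Path.refl x)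
  rw [Path.refl_trans_refl] at h
  exact left_eq_add.1 h

theorem pc_sub {x₀ : X} (c : ∀ x, Path x₀ x) (γ : Path x₀ x₀) (n i : ℕ) :
    hc c (γ.subpath (pt n 0) (pt n i)) =
      ∑ j ∈ Finset.range i, hc c (γ.subpath (pt n j) (pt n (j + 1))) := by
  induction i with
  | zero => rw [Path.subpath_self, pc_hc_refl, Finset.sum_range_zero]
  | succ i ih =>
    rw [Finset.sum_range_succ, ← ih, ← hc_trans]
    exact (hc_homotopic c ⟨Path.Homotopy.subpathTransSubpath γ (pt n 0) (pt n i) (pt n (i + 1))⟩).symm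

theorem pc_pt_zero (n : ℕ) : pt n 0 = 0 := by
  unfold pt
  rw [Nat.cast_zero, zero_div]
  exact Set.projIcc_left (zero_le_one (α := ℝ))

theorem pc_pt_self {n : ℕ} (hn : 0 < n) : pt n n = 1 := by
  unfold pt
  rw [div_self (by exact_mod_cast hn.ne')]
  exact Set.projIcc_right (zero_le_one (α := ℝ))

theorem pc_pt_coe {n i : ℕ} (hn : 0 < n) (hi : i ≤ n) : ((pt n i : I) : ℝ) = (i : ℝ) / n := by
  unfold pt
  rw [Set.projIcc_of_mem zero_le_one]
  constructor
  · positivity
  · rw [div_le_one (by exact_mod_cast hn)]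
    exact_mod_cast hi

theorem pc_trans_dist {x y z : X} (p : Path x y) (p' : Path y z) (w : X) (δ : ℝ)
    (h : ∀ t, dist w (p t) < δ) (h' : ∀ t, dist w (p' t) < δ) (t : I) :
    dist w ((p.trans p') t) < δ := by
  rw [Path.trans_apply]
  split_ifs with ht
  · exact h _
  · exact h' _

/-- T3: the class of a loop is the sum of the classes of small pieces -/
theorem h1_pieces {δ ε : ℝ} (hε : 0 < ε) (hεδ : 2 * ε ≤ δ) (hS : Small X δ) {x₀ : X}
    (c : ∀ x, Path x₀ x) (q : ∀ x y, Path x y)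
    (hq : ∀ x y, dist x y < ε → ∀ t, dist x (q x y t) < 2 * ε) (γ : Path x₀ x₀) :
    ∃ N : ℕ, ∀ n ≥ N, h1 γ =
      ∑ i ∈ Finset.range n, hc c (q (γ (pt n i)) (γ (pt n (i + 1)))) := by
  have hu : UniformContinuous (fun t : I => γ t) :=
    CompactSpace.uniformContinuous_of_continuous γ.continuous
  obtain ⟨η, hη, hγ⟩ := Metric.uniformContinuous_iff.1 hu ε hε
  obtain ⟨N, hN⟩ := exists_nat_gt (1 / η)
  refine ⟨N + 1, fun n hn => ?_⟩
  have hn0 : 0 < n := by omega
  have hnr : (0 : ℝ) < n := by exact_mod_cast hn0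
  have hn1 : 1 / (n : ℝ) < η := by
    rw [div_lt_comm₀ hnr hη]
    refine hN.trans_le ?_
    exact_mod_cast (by omega : N ≤ n)
  have e1 : h1 γ = hc c (γ.subpath (pt n 0) (pt n n)) := by
    rw [pc_pt_zero, pc_pt_self hn0, Path.subpath_zero_one, pc_hc_cast, hc_loop]
  rw [e1, pc_sub]
  refine Finset.sum_congr rfl fun i hi => ?_
  have hin : i < n := Finset.mem_range.1 hi
  have hlow : ((pt n i : I) : ℝ) = (i : ℝ) / n := pc_pt_coe hn0 hin.le
  have hup : ((pt n (i + 1) : I) : ℝ) = ((i + 1 : ℕ) : ℝ) / n := pc_pt_coe hn0 hin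
  have hdiff : ((pt n (i + 1) : I) : ℝ) - ((pt n i : I) : ℝ) = 1 / n := by
    rw [hlow, hup, ← sub_div]
    push_cast
    ring
  have hle : pt n i ≤ pt n (i + 1) := by
    rw [← Subtype.coe_le_coe]
    have : (0 : ℝ) < 1 / n := by positivity
    linarith
  have hg : ∀ t, dist (γ (pt n i)) (γ.subpath (pt n i) (pt n (i + 1)) t) < ε := by
    intro t
    have hm : γ.subpath (pt n i) (pt n (i + 1)) t ∈ range (γ.subpath (pt n i) (pt n (i + 1))) :=
      ⟨t, rfl⟩
    rw [Path.range_subpath_of_le γ _ _ hle] at hm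
    obtain ⟨s, hs, hs'⟩ := hm
    rw [← hs']
    refine hγ ?_
    rw [Subtype.dist_eq, Real.dist_eq, abs_sub_comm, abs_of_nonneg]
    · have h1 : (s : ℝ) ≤ ((pt n (i + 1) : I) : ℝ) := hs.2
      linarith
    · have h1 : ((pt n i : I) : ℝ) ≤ (s : ℝ) := hs.1
      linarith
  have hxy : dist (γ (pt n i)) (γ (pt n (i + 1))) < ε := by
    have := hg 1
    rwa [Path.target] at this
  have hloop := hS (γ (pt n i)) ((γ.subpath (pt n i) (pt n (i + 1))).trans
    (q (γ (pt n i)) (γ (pt n (i + 1)))).symm) (fun t => pc_trans_dist _ _ _ _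
      (fun t => (hg t).trans_le (by linarith)) (fun t => by
        rw [Path.symm_apply]
        exact (hq _ _ hxy _).trans_le hεδ) t)
  have h2 := hc_homotopic c hloop
  rw [hc_trans, hc_symm, pc_hc_refl] at h2
  exact eq_of_sub_eq_zero (by rw [sub_eq_add_neg]; exact h2)

end Pool.Agent.H793.AB
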