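import Pool.Agent.H793.AB.Ln

set_option autoImplicit false

open Set Metric Topology Finset
open scoped Pointwise unitInterval

namespace Pool.Agent.H793.AB

universe u

variable {X : Type u} [MetricSpace X]

/-- a conjugate of a loop is null-homotopic only if the loop is -/
theorem nullhomotopic_of_conj {x y : X} (p : Path x y) (γ : Path y y)
    (h : (p.trans (γ.trans p.symm)).Homotopic (Path.refl x)) : γ.Homotopic (Path.refl y) := by
  have h1 : (γ.trans p.symm).Homotopic p.symm := by
    have a1 : (p.symm.trans (p.trans (γ.trans p.symm))).Homotopic (p.symm.trans (Path.refl x)) :=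
      Path.Homotopic.hcomp (Path.Homotopic.refl p.symm) h
    have a2 : ((p.symm.trans p).trans (γ.trans p.symm)).Homotopic
        (p.symm.trans (p.trans (γ.trans p.symm))) :=
      Path.Homotopic.trans_assoc p.symm p (γ.trans p.symm)
    have a3 : ((Path.refl y).trans (γ.trans p.symm)).Homotopic
        ((p.symm.trans p).trans (γ.trans p.symm)) :=
      Path.Homotopic.hcomp (Path.Homotopic.symm_trans p).symm (Path.Homotopic.refl _)
    have a4 : (γ.trans p.symm).Homotopic ((Path.refl y).trans (γ.trans p.symm)) :=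
      (Path.Homotopic.refl_trans _).symm
    exact (((a4.trans a3).trans a2).trans a1).trans (Path.Homotopic.trans_refl _)
  have b1 : ((γ.trans p.symm).trans p).Homotopic (p.symm.trans p) :=
    Path.Homotopic.hcomp h1 (Path.Homotopic.refl p)
  have b2 : (γ.trans (p.symm.trans p)).Homotopic ((γ.trans p.symm).trans p) :=
    (Path.Homotopic.trans_assoc γ p.symm p).symm
  have b3 : (γ.trans (Path.refl y)).Homotopic (γ.trans (p.symm.trans p)) :=
    Path.Homotopic.hcomp (Path.Homotopic.refl γ) (Path.Homotopic.symm_trans p).symm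
  exact ((((Path.Homotopic.trans_refl γ).symm.trans b3).trans b2).trans b1).trans
    (Path.Homotopic.symm_trans p)

theorem exists_pos_le_finset (T : Finset X) (f : X → ℝ) (hf : ∀ x, 0 < f x) :
    ∃ δ : ℝ, 0 < δ ∧ ∀ x ∈ T, δ ≤ f x := by
  classical
  induction T using Finset.induction_on with
  | empty => exact ⟨1, one_pos, fun x hx => absurd hx (Finset.notMem_empty x)⟩
  | insert a s ha ih =>
    obtain ⟨δ, h1, h2⟩ := ih
    refine ⟨min (f a) δ, lt_min (hf a) h1, fun x hx => ?_⟩
    rcases Finset.mem_insert.1 hx with rfl | hx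
    · exact min_le_left _ _
    · exact (min_le_right _ _).trans (h2 x hx)

/-- T1: small loops are null-homotopic, uniformly -/
theorem small_of_slsc [CompactSpace X] (hL : IsLength X) (hS : SLSC X) :
    ∃ δ : ℝ, 0 < δ ∧ Small X δ := by
  have h0 : ∀ x : X, ∃ r : ℝ, 0 < r ∧ ∀ γ : Path x x, (∀ t, dist x (γ t) < r) →
      γ.Homotopic (Path.refl x) := by
    intro x
    obtain ⟨U, hU, h⟩ := hS x
    obtain ⟨r, hr, hrU⟩ := Metric.mem_nhds_iff.1 hU
    refine ⟨r, hr, fun γ hγ => h γ fun t => hrU ?_⟩
    rw [Metric.mem_ball, dist_comm]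
    exact hγ t
  choose r hr hloop using h0
  obtain ⟨T, hT⟩ := isCompact_univ.elim_nhds_subcover (fun x => ball x (r x / 2))
    (fun x _ => ball_mem_nhds x (half_pos (hr x)))
  have hδ : ∃ δ : ℝ, 0 < δ ∧ ∀ x ∈ T, δ ≤ r x / 2 :=
    exists_pos_le_finset T (fun x => r x / 2) fun x => half_pos (hr x)
  obtain ⟨δ, hδ0, hδ⟩ := hδ
  refine ⟨δ, hδ0, fun y γ hγ => ?_⟩
  have hy := hT.2 (mem_univ y)
  simp only [mem_iUnion, Metric.mem_ball] at hy
  obtain ⟨x, hxT, hxy⟩ := hy
  rw [dist_comm] at hxy
  obtain ⟨p, hp⟩ := hL x y (r x / 2) (half_pos (hr x))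
  have hp' : ∀ t, dist x (p t) < r x := by
    intro t
    have h1 := (dist_le_len p 0 t).trans hp
    rw [p.source] at h1
    have h2 : dist x (p t) ≤ dist x y + r x / 2 :=
      (ENNReal.ofReal_le_ofReal_iff (by have := hr x; positivity)).1 h1
    linarith
  have hγ' : ∀ t, dist x (γ t) < r x := by
    intro t
    have h1 := hγ t
    have h2 := dist_triangle x y (γ t)
    have h3 := hδ x hxT
    linarith
  apply nullhomotopic_of_conj p γ
  apply hloop x
  intro t
  rw [Path.trans_apply]
  split_ifs with h1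
  · exact hp' _
  · rw [Path.trans_apply]
    split_ifs with h2
    · exact hγ' _
    · rw [Path.symm_apply]
      exact hp' _

end Pool.Agent.H793.AB
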