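import Pool.Agent.H793.AB.S2d
import Pool.Agent.H793.AB.Pc
import Pool.Agent.H793.AB.Cc
import Pool.Agent.H793.AB.Sm1
import Pool.Agent.H793.AB.Ln

set_option autoImplicit false

open Set Metric Topology Finset
open scoped Pointwise unitInterval

namespace Pool.Agent.H793.AB

universe u

variable {X : Type u} [MetricSpace X]

theorem bad_surj {x₀ : X} (a : H1 x₀) : ∃ γ : Path x₀ x₀, h1 γ = a := by
  obtain ⟨b, rfl⟩ : ∃ b : Abelianization (FundamentalGroup X x₀), Additive.ofMul b = a :=
    ⟨a.toMul, rfl⟩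
  obtain ⟨g, rfl⟩ : ∃ g : FundamentalGroup X x₀, Abelianization.of g = b :=
    QuotientGroup.mk_surjective b
  obtain ⟨γ, hγ⟩ := Quotient.exists_rep (FundamentalGroup.toPath g)
  refine ⟨γ, ?_⟩
  unfold h1
  have : FundamentalGroup.fromPath (Path.Homotopic.Quotient.mk γ) = g := by
    have h2 : Path.Homotopic.Quotient.mk γ = FundamentalGroup.toPath g := hγ
    rw [h2]
  rw [this]

theorem bad_arg {z : ℂ} (h : ‖1 - z‖ < 1) : |Complex.arg z| < Real.pi / 2 := by
  rw [Complex.abs_arg_lt_pi_div_two_iff]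
  left
  have h1 : |(1 - z).re| ≤ ‖1 - z‖ := Complex.abs_re_le_norm _
  have h2 := (abs_le.mp h1).2
  rw [Complex.sub_re, Complex.one_re] at h2
  linarith

theorem bad_exp {z : ℂ} (h : ‖z‖ = 1) : Complex.exp (Complex.arg z * Complex.I) = z := by
  have := Complex.norm_mul_exp_arg_mul_I z
  rwa [h, Complex.ofReal_one, one_mul] at this

theorem bad_sum {A : Type*} [AddCommMonoid A] (χ : AddChar A ℂ) (f : ℕ → A) (n : ℕ) :
    χ (∑ i ∈ Finset.range n, f i) = ∏ i ∈ Finset.range n, χ (f i) := by
  induction n with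
  | zero => simp
  | succ n ih => rw [Finset.sum_range_succ, Finset.prod_range_succ, AddChar.map_add_eq_mul, ih]

/-- T5: every nontrivial character has a short bad loop -/
theorem exists_bad [CompactSpace X] (hL : IsLength X) (hS : SLSC X) (x₀ : X) [Finite (H1 x₀)]
    (hD : 0 < Metric.diam (Set.univ : Set X)) (χ : AddChar (H1 x₀) ℂ) (hχ : χ ≠ 1) :
    ∃ γ : Path x₀ x₀, len γ ≤ ENNReal.ofReal (5 * Metric.diam (Set.univ : Set X)) ∧
      1 ≤ ‖1 - χ (h1 γ)‖ := by
  set D := Metric.diam (Set.univ : Set X) with hDdef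
  by_contra hcon
  push Not at hcon
  obtain ⟨δ, hδ, hsm⟩ := small_of_slsc hL hS
  set ε : ℝ := min (δ / 4) (D / 2) with hε
  have hε0 : 0 < ε := lt_min (by positivity) (by positivity)
  have hε1 : 4 * ε ≤ δ := by have := min_le_left (δ / 4) (D / 2); linarith
  have hε2 : 2 * ε ≤ D := by have := min_le_right (δ / 4) (D / 2); linarith
  have hdist : ∀ x y : X, dist x y ≤ D := fun x y =>
    Metric.dist_le_diam_of_mem isCompact_univ.isBounded (mem_univ x) (mem_univ y)
  choose q hq0 using fun x y : X => hL x y ε hε0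
  have hc0 : ∀ x : X, ∃ γ : Path x₀ x, len γ ≤ ENNReal.ofReal (2 * D) := by
    intro x
    obtain ⟨γ, hγ⟩ := hL x₀ x D hD
    exact ⟨γ, hγ.trans (ENNReal.ofReal_le_ofReal (by have := hdist x₀ x; linarith))⟩
  choose c hc1 using hc0
  have hq : ∀ x y, dist x y < ε → ∀ t, dist x (q x y t) < 2 * ε := by
    intro x y hxy t
    have h1 := dist_le_len (q x y) 0 t
    rw [Path.source] at h1
    have h2 : ENNReal.ofReal (dist x (q x y t)) ≤ ENNReal.ofReal (dist x y + ε) :=
      h1.trans (hq0 x y)
    rw [ENNReal.ofReal_le_ofReal_iff (by have := dist_nonneg (x := x) (y := y); linarith)] at h2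
    linarith
  have hlen : ∀ x y, dist x y < ε →
      len (((c x).trans (q x y)).trans (c y).symm) ≤ ENNReal.ofReal (5 * D) := by
    intro x y hxy
    rw [len_trans, len_trans, len_symm]
    calc len (c x) + len (q x y) + len (c y)
        ≤ ENNReal.ofReal (2 * D) + ENNReal.ofReal D + ENNReal.ofReal (2 * D) := by
          refine add_le_add (add_le_add (hc1 x) ?_) (hc1 y)
          exact (hq0 x y).trans (ENNReal.ofReal_le_ofReal (by linarith))
      _ = ENNReal.ofReal (5 * D) := by
          rw [← ENNReal.ofReal_add (by positivity) (by positivity),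
            ← ENNReal.ofReal_add (by positivity) (by positivity)]
          congr 1
          ring
  have hsmall : ∀ x y, dist x y < ε → ‖1 - χ (hc c (q x y))‖ < 1 := fun x y hxy =>
    hcon _ (hlen x y hxy)
  have hnorm : ∀ a, ‖χ a‖ = 1 := fun a => AddChar.norm_apply χ a
  set θ : X → X → ℝ := fun x y => Complex.arg (χ (hc c (q x y))) with hθ
  have hcoc : Coc θ ε := by
    intro x y z hxy hyz hxz
    have h1 := hc_coc hε0 hε1 hsm c q hq x y z hxy hyz hxz
    show Complex.arg (χ (hc c (q x z))) = Complex.arg (χ (hc c (q x y))) +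
      Complex.arg (χ (hc c (q y z)))
    have h2 := abs_lt.mp (bad_arg (hsmall x y hxy))
    have h3 := abs_lt.mp (bad_arg (hsmall y z hyz))
    rw [h1, AddChar.map_add_eq_mul]
    have hx0 : χ (hc c (q x y)) ≠ 0 := by
      intro h0
      have := hnorm (hc c (q x y))
      rw [h0, norm_zero] at this
      exact zero_ne_one this
    have hy0 : χ (hc c (q y z)) ≠ 0 := by
      intro h0
      have := hnorm (hc c (q y z))
      rw [h0, norm_zero] at this
      exact zero_ne_one this
    apply Complex.arg_mul hx0 hy0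
    constructor <;> linarith [h2.1, h2.2, h3.1, h3.2]
  apply hχ
  ext a
  obtain ⟨γ, rfl⟩ := bad_surj a
  obtain ⟨N, hN⟩ := sm_loop_zero hε0 hcoc x₀ γ
  obtain ⟨N', hN'⟩ := h1_pieces hε0 (by linarith) hsm c q hq γ
  have h4 := hN (max N N') (le_max_left _ _)
  rw [hN' (max N N') (le_max_right _ _), bad_sum, AddChar.one_apply]
  calc ∏ i ∈ Finset.range (max N N'), χ (hc c (q (γ (pt (max N N') i)) (γ (pt (max N N') (i + 1)))))
      = ∏ i ∈ Finset.range (max N N'),
        Complex.exp ((θ (γ (pt (max N N') i)) (γ (pt (max N N') (i + 1))) : ℝ) * Complex.I) := by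
        apply Finset.prod_congr rfl
        intro i _
        exact (bad_exp (hnorm _)).symm
    _ = Complex.exp (∑ i ∈ Finset.range (max N N'),
        ((θ (γ (pt (max N N') i)) (γ (pt (max N N') (i + 1))) : ℝ) * Complex.I)) := by
        rw [Complex.exp_sum]
    _ = 1 := by
        rw [← Finset.sum_mul, ← Complex.ofReal_sum]
        have h5 : ∑ i ∈ Finset.range (max N N'),
          θ (γ (pt (max N N') i)) (γ (pt (max N N') (i + 1))) = 0 := h4
        rw [h5, Complex.ofReal_zero, zero_mul, Complex.exp_zero]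

end Pool.Agent.H793.AB
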