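import Pool.Agent.H793.AB.Defs

set_option autoImplicit false

open Set Metric Topology Finset
open scoped Pointwise unitInterval

namespace Pool.Agent.H793.AB

universe u

variable {X : Type u} [MetricSpace X]

/-- the homology class of a class of loops -/
noncomputable def cl_q {X : Type u} [TopologicalSpace X] {x₀ : X}
    (P : Path.Homotopic.Quotient x₀ x₀) : H1 x₀ :=
  Additive.ofMul (Abelianization.of (FundamentalGroup.fromPath P))

theorem cl_q_mk {X : Type u} [TopologicalSpace X] {x₀ : X} (γ : Path x₀ x₀) :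
    h1 γ = cl_q (Path.Homotopic.Quotient.mk γ) := rfl

theorem cl_q_trans {X : Type u} [TopologicalSpace X] {x₀ : X}
    (P Q : Path.Homotopic.Quotient x₀ x₀) : cl_q (P.trans Q) = cl_q P + cl_q Q := by
  have h : cl_q (P.trans Q) = Additive.ofMul (Abelianization.of
      (FundamentalGroup.fromPath Q * FundamentalGroup.fromPath P)) := rfl
  rw [h, map_mul, ofMul_mul, add_comm]
  rfl

theorem cl_q_refl {X : Type u} [TopologicalSpace X] (x₀ : X) :
    cl_q (Path.Homotopic.Quotient.refl x₀) = 0 := by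
  have h : cl_q (Path.Homotopic.Quotient.refl x₀) = Additive.ofMul (Abelianization.of
      (1 : FundamentalGroup X x₀)) := rfl
  rw [h, map_one, ofMul_one]

theorem cl_q_symm {X : Type u} [TopologicalSpace X] {x₀ : X}
    (P : Path.Homotopic.Quotient x₀ x₀) : cl_q P + cl_q P.symm = 0 := by
  rw [← cl_q_trans, Path.Homotopic.Quotient.trans_symm, cl_q_refl]

theorem cl_hc {X : Type u} [TopologicalSpace X] {x₀ : X} (c : ∀ x, Path x₀ x) {x y : X}
    (γ : Path x y) : hc c γ = cl_q (((Path.Homotopic.Quotient.mk (c x)).trans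
      (Path.Homotopic.Quotient.mk γ)).trans (Path.Homotopic.Quotient.mk (c y)).symm) := rfl

/-- T3a: calculus of classes -/
theorem h1_surj {x₀ : X} (a : H1 x₀) : ∃ γ : Path x₀ x₀, h1 γ = a := by
  obtain ⟨P, hP⟩ := QuotientGroup.mk_surjective (Additive.toMul a)
  obtain ⟨γ, hγ⟩ := Path.Homotopic.Quotient.mk_surjective (FundamentalGroup.toPath P)
  refine ⟨γ, ?_⟩
  rw [cl_q_mk, hγ]
  exact congrArg Additive.ofMul hP

theorem h1_homotopic {x₀ : X} {γ γ' : Path x₀ x₀} (h : γ.Homotopic γ') : h1 γ = h1 γ' := by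
  rw [cl_q_mk, cl_q_mk, Path.Homotopic.Quotient.eq.2 h]

theorem h1_trans {x₀ : X} (γ γ' : Path x₀ x₀) : h1 (γ.trans γ') = h1 γ + h1 γ' := by
  rw [cl_q_mk, cl_q_mk, cl_q_mk, Path.Homotopic.Quotient.mk_trans, cl_q_trans]

theorem h1_refl (x₀ : X) : h1 (Path.refl x₀) = 0 := by
  rw [cl_q_mk, Path.Homotopic.Quotient.mk_refl, cl_q_refl]

theorem hc_homotopic {x₀ : X} (c : ∀ x, Path x₀ x) {x y : X} {γ γ' : Path x y}
    (h : γ.Homotopic γ') : hc c γ = hc c γ' := by
  rw [cl_hc, cl_hc, Path.Homotopic.Quotient.eq.2 h]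

theorem hc_trans {x₀ : X} (c : ∀ x, Path x₀ x) {x y z : X} (γ : Path x y) (γ' : Path y z) :
    hc c (γ.trans γ') = hc c γ + hc c γ' := by
  rw [cl_hc, cl_hc, cl_hc, ← cl_q_trans, Path.Homotopic.Quotient.mk_trans]
  congr 1
  simp only [Path.Homotopic.Quotient.trans_assoc]
  rw [← Path.Homotopic.Quotient.trans_assoc (Path.Homotopic.Quotient.mk (c y)).symm,
    Path.Homotopic.Quotient.symm_trans, Path.Homotopic.Quotient.refl_trans]

theorem hc_loop {x₀ : X} (c : ∀ x, Path x₀ x) (γ : Path x₀ x₀) : hc c γ = h1 γ := by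
  rw [cl_hc, cl_q_trans, cl_q_trans, cl_q_mk]
  have h := cl_q_symm (Path.Homotopic.Quotient.mk (c x₀))
  rw [add_comm (cl_q (Path.Homotopic.Quotient.mk (c x₀))), add_assoc, h, add_zero]

theorem cl_hc_refl {x₀ : X} (c : ∀ x, Path x₀ x) (x : X) : hc c (Path.refl x) = 0 := by
  rw [cl_hc, Path.Homotopic.Quotient.mk_refl, Path.Homotopic.Quotient.trans_refl,
    Path.Homotopic.Quotient.trans_symm, cl_q_refl]

theorem hc_symm {x₀ : X} (c : ∀ x, Path x₀ x) {x y : X} (γ : Path x y) :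
    hc c γ.symm = - hc c γ := by
  have h : hc c γ + hc c γ.symm = 0 := by
    rw [← hc_trans, hc_homotopic c (Path.Homotopic.trans_symm γ), cl_hc_refl]
  exact eq_neg_of_add_eq_zero_right h

theorem h1_triple {x₀ : X} (c : ∀ x, Path x₀ x) {x y : X} (α : Path x₀ x) (γ : Path x y)
    (β : Path x₀ y) : h1 ((α.trans γ).trans β.symm) = hc c α + hc c γ - hc c β := by
  rw [← hc_loop c, hc_trans, hc_trans, hc_symm, sub_eq_add_neg]

end Pool.Agent.H793.AB
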