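import Pool.Agent.H793.AB.Main

set_option autoImplicit false

open Set Metric Topology Finset
open scoped Pointwise unitInterval

namespace Pool.Agent.H793.AB

universe u

/-- `p : Y → X` is a universal abelian cover: a covering map with path connected `Y` such that a loop of
`X` is the image of a loop of `Y` if and only if its class in `H_1` is zero. -/
def IsUAC {X Y : Type u} [TopologicalSpace X] [TopologicalSpace Y] (p : Y → X) : Prop :=
  IsCoveringMap p ∧ PathConnectedSpace Y ∧ ∀ (y : Y) (γ : Path (p y) (p y)),
    (∃ l : Path y y, ∀ t, p (l t) = γ t) ↔ h1 γ = 0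

/-- The diameter of `Y` for the lifted length metric: the distance of `y` and `z` is the infimum of the
lengths in `X` of the images of the paths from `y` to `z`. -/
noncomputable def liftDiam {X Y : Type u} [MetricSpace X] [TopologicalSpace Y] (p : Y → X) : ENNReal :=
  ⨆ (y : Y) (z : Y), ⨅ (γ : Path y z), eVariationOn (fun t : I => p (γ t)) Set.univ

/-- A path whose concatenation with the images of two paths of the cover lifts to a loop lifts to a path
with the right end points. -/
theorem lift_key {X Y : Type u} [TopologicalSpace X] [TopologicalSpace Y] {p : Y → X}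
    (hc : IsCoveringMap p) {y₀ y z : Y} (a : Path y₀ y) (b : Path y₀ z) (γ : Path (p y) (p z))
    (l : Path y₀ y₀)
    (hl : ∀ t, p (l t) = (((a.map hc.continuous).trans γ).trans (b.map hc.continuous).symm) t) :
    ∃ g : Path y z, ∀ t, p (g t) = γ t := by
  obtain ⟨Γ, hΓ, hΓ0⟩ := hc.exists_path_lifts γ.toContinuousMap y γ.source
  have hΓ' : ∀ t, p (Γ t) = γ t := fun t => congrFun hΓ t
  have hb0 : (b.map hc.continuous).symm.toContinuousMap 0 = p (Γ 1) := by
    rw [hΓ' 1, γ.target]
    exact (b.map hc.continuous).symm.source
  obtain ⟨B, hB, hB0⟩ := hc.exists_path_lifts (b.map hc.continuous).symm.toContinuousMap (Γ 1) hb0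
  have hB' : ∀ t, p (B t) = (b.map hc.continuous).symm t := fun t => congrFun hB t
  let g' : Path y (Γ 1) := ⟨Γ, hΓ0, rfl⟩
  let b' : Path (Γ 1) (B 1) := ⟨B, hB0, rfl⟩
  have hg' : ∀ t, p (g' t) = γ t := hΓ'
  have hb' : ∀ t, p (b' t) = (b.map hc.continuous).symm t := hB'
  have ha : ∀ t, p (a t) = (a.map hc.continuous) t := fun t => rfl
  have e1 : p ∘ ((a.trans g').trans b') = p ∘ l := by
    funext t
    rw [Function.comp_apply, Function.comp_apply, hl t, Path.trans_apply, Path.trans_apply]
    split_ifs with h1
    · rw [Path.trans_apply, Path.trans_apply]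
      split_ifs with h2
      · rfl
      · exact hg' _
    · exact hb' _
  have e2 : ((a.trans g').trans b' : I → Y) = l :=
    hc.eq_of_comp_eq ((a.trans g').trans b').continuous l.continuous e1 0
      (((a.trans g').trans b').source.trans l.source.symm)
  have e3 : B 1 = y₀ := by
    have h1 := congrFun e2 1
    rw [((a.trans g').trans b').target, l.target] at h1
    exact h1
  have e4 : (fun t : I => B (unitInterval.symm t)) = (b : I → Y) := by
    refine hc.eq_of_comp_eq (B.continuous.comp unitInterval.continuous_symm) b.continuous ?_ 0 ?_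
    · funext t
      rw [Function.comp_apply, Function.comp_apply, hB']
      change p (b (unitInterval.symm (unitInterval.symm t))) = p (b t)
      rw [unitInterval.symm_symm]
    · change B (unitInterval.symm 0) = b 0
      rw [unitInterval.symm_zero, e3, b.source]
  have e5 : Γ 1 = z := by
    have h1 := congrFun e4 1
    change B (unitInterval.symm 1) = b 1 at h1
    rw [unitInterval.symm_one, hB0, b.target] at h1
    exact h1
  exact ⟨⟨Γ, hΓ0, e5⟩, hΓ'⟩

/-- C1: the diameter of a universal abelian cover is bounded by the diameter computed with paths of `X` -/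
theorem liftDiam_le {X Y : Type u} [MetricSpace X] [TopologicalSpace Y] {p : Y → X} (hp : IsUAC p)
    (y₀ : Y) : liftDiam p ≤ coverDiam (p y₀) := by
  obtain ⟨hc, hpc, hl⟩ := hp
  unfold liftDiam
  refine iSup₂_le fun y z => ?_
  obtain ⟨a⟩ := PathConnectedSpace.joined y₀ y
  obtain ⟨b⟩ := PathConnectedSpace.joined y₀ z
  have h1 : coverDist (a.map hc.continuous) (b.map hc.continuous) ≤ coverDiam (p y₀) := by
    unfold coverDiam
    exact le_iSup₂_of_le (p y) (p z) (le_iSup₂_of_le (a.map hc.continuous) (b.map hc.continuous)
      le_rfl)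
  refine le_trans ?_ h1
  unfold coverDist
  refine le_iInf₂ fun γ hγ => ?_
  obtain ⟨l, hl'⟩ := (hl y₀ _).2 hγ
  obtain ⟨g, hg⟩ := lift_key hc a b γ l hl'
  refine iInf_le_of_le g (le_of_eq ?_)
  have e : (fun t : I => p (g t)) = fun t : I => γ t := funext hg
  rw [e]
  rfl

end Pool.Agent.H793.AB
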