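import Mathlib

set_option autoImplicit false

open Set Metric Topology Finset
open scoped Pointwise unitInterval

namespace Pool.Agent.H793.AB

universe u

/-- The length of a path in a metric space. -/
noncomputable def len {X : Type u} [MetricSpace X] {x y : X} (γ : Path x y) : ENNReal :=
  eVariationOn (fun t : I => γ t) Set.univ

/-- `X` is a length space: the distance of two points is the infimum of the lengths of the paths
which join them. -/
def IsLength (X : Type u) [MetricSpace X] : Prop :=
  ∀ x y : X, ∀ ε : ℝ, 0 < ε → ∃ γ : Path x y, len γ ≤ ENNReal.ofReal (dist x y + ε)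

/-- `X` is semi-locally simply connected: every point `x` has a neighbourhood `U` such that every
loop at `x` in `U` is null-homotopic in `X`. -/
def SLSC (X : Type u) [TopologicalSpace X] : Prop :=
  ∀ x : X, ∃ U ∈ 𝓝 x, ∀ γ : Path x x, (∀ t, γ t ∈ U) → γ.Homotopic (Path.refl x)

/-- `H_1(X, ℤ)`, the abelianized fundamental group (`X` path connected), written additively. -/
abbrev H1 {X : Type u} [TopologicalSpace X] (x₀ : X) : Type u :=
  Additive (Abelianization (FundamentalGroup X x₀))

/-- The homology class of a loop. -/
noncomputable def h1 {X : Type u} [TopologicalSpace X] {x₀ : X} (γ : Path x₀ x₀) : H1 x₀ :=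
  Additive.ofMul (Abelianization.of (FundamentalGroup.fromPath (Path.Homotopic.Quotient.mk γ)))

/-- Loops in balls of radius `δ` are null-homotopic. -/
def Small (X : Type u) [MetricSpace X] (δ : ℝ) : Prop :=
  ∀ (y : X) (γ : Path y y), (∀ t, dist y (γ t) < δ) → γ.Homotopic (Path.refl y)

/-- The class of the loop `c x · γ · (c y)⁻¹`. -/
noncomputable def hc {X : Type u} [TopologicalSpace X] {x₀ : X} (c : ∀ x, Path x₀ x) {x y : X}
    (γ : Path x y) : H1 x₀ := h1 (((c x).trans γ).trans (c y).symm)

/-- The point `i / n` of the unit interval. -/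
noncomputable def pt (n i : ℕ) : I := Set.projIcc (0 : ℝ) 1 zero_le_one ((i : ℝ) / n)

/-- The sum of `θ` along the subdivision of `γ` into `n` parts. -/
noncomputable def sm {X : Type u} [TopologicalSpace X] {x y : X} (θ : X → X → ℝ) (γ : Path x y)
    (n : ℕ) : ℝ := ∑ i ∈ Finset.range n, θ (γ (pt n i)) (γ (pt n (i + 1)))

/-- `θ` is a local cocycle. -/
def Coc {X : Type u} [MetricSpace X] (θ : X → X → ℝ) (δ : ℝ) : Prop :=
  ∀ x y z, dist x y < δ → dist y z < δ → dist x z < δ → θ x z = θ x y + θ y z

end Pool.Agent.H793.AB
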