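import Pool.Agent.H793.AB.Defs

set_option autoImplicit false

open Set Metric Topology Finset
open scoped Pointwise unitInterval

namespace Pool.Agent.H793.AB

universe u

variable {G : Type u} [AddCommGroup G] [Fintype G] [DecidableEq G]

/-- dissociated finite sets -/
def Dsc (A : Finset G) : Prop :=
  ∀ e : G → ℤ, (∀ x, |e x| ≤ 1) → ∑ x ∈ A, e x • x = 0 → ∀ x ∈ A, e x = 0

omit [Fintype G] in
theorem Dsc_inj {A : Finset G} (hA : Dsc A) (T₁ T₂ : Finset G) (h1 : T₁ ⊆ A) (h2 : T₂ ⊆ A)
    (h : ∑ x ∈ T₁, x = ∑ x ∈ T₂, x) : T₁ = T₂ := by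
  classical
  have key := hA (fun x => (if x ∈ T₁ then 1 else 0) - (if x ∈ T₂ then 1 else 0)) ?_ ?_
  · ext x
    constructor
    · intro hx
      have := key x (h1 hx)
      by_contra hx2
      simp [hx, hx2] at this
    · intro hx
      have := key x (h2 hx)
      by_contra hx2
      simp [hx, hx2] at this
  · intro x
    by_cases a : x ∈ T₁ <;> by_cases b : x ∈ T₂ <;> simp [a, b]
  · have e1 : ∀ T : Finset G, T ⊆ A →
        ∑ x ∈ A, (if x ∈ T then (1 : ℤ) else 0) • x = ∑ x ∈ T, x := by
      intro T hT
      rw [← Finset.sum_subset hT]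
      · apply Finset.sum_congr rfl
        intro x hx
        simp [hx]
      · intro x _ hx
        simp [hx]
    simp only [sub_smul, Finset.sum_sub_distrib]
    rw [e1 T₁ h1, e1 T₂ h2, h, sub_self]

/-- B2: a maximal dissociated subset -/
theorem exists_dissoc (S : Finset G) :
    ∃ Λ : Finset G, Λ ⊆ S ∧ 2 ^ Λ.card ≤ Fintype.card G ∧
      ∃ ε : G → G → ℤ, ∀ s ∈ S, (∀ x, |ε s x| ≤ 1) ∧ ∑ x ∈ Λ, ε s x • x = s ∧
        (s ∈ Λ → ∀ x, ε s x = if x = s then 1 else 0) := by
  classical
  have hne : (S.powerset.filter (fun A => Dsc A)).Nonempty := by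
    refine ⟨∅, ?_⟩
    rw [Finset.mem_filter]
    refine ⟨Finset.empty_mem_powerset S, ?_⟩
    intro e _ _ x hx
    simp at hx
  obtain ⟨L, hL, hmax⟩ := Finset.exists_max_image _ (fun A : Finset G => A.card) hne
  rw [Finset.mem_filter, Finset.mem_powerset] at hL
  obtain ⟨hLS, hLd⟩ := hL
  refine ⟨L, hLS, ?_, ?_⟩
  · rw [← Finset.card_powerset]
    apply Finset.card_le_card_of_injOn (t := Finset.univ) (fun T : Finset G => ∑ x ∈ T, x)
    · intro T _
      simp
    · intro T1 h1 T2 h2 h
      rw [Finset.mem_coe, Finset.mem_powerset] at h1 h2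
      exact Dsc_inj hLd T1 T2 h1 h2 h
  · have key : ∀ s : G, ∃ f : G → ℤ, s ∈ S → (∀ x, |f x| ≤ 1) ∧ ∑ x ∈ L, f x • x = s ∧
        (s ∈ L → ∀ x, f x = if x = s then 1 else 0) := by
      intro s
      by_cases hs : s ∈ S
      · by_cases hsL : s ∈ L
        · refine ⟨fun x => if x = s then 1 else 0, fun _ => ⟨?_, ?_, ?_⟩⟩
          · intro x
            by_cases h : x = s <;> simp [h]
          · rw [Finset.sum_eq_single s]
            · simp
            · intro b _ hb
              simp [hb]
            · intro h
              exact absurd hsL h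
          · intro _ x
            rfl
        · have hnd : ¬ Dsc (insert s L) := by
            intro hd
            have := hmax (insert s L) (by
              rw [Finset.mem_filter, Finset.mem_powerset]
              exact ⟨Finset.insert_subset hs hLS, hd⟩)
            rw [Finset.card_insert_of_notMem hsL] at this
            omega
          unfold Dsc at hnd
          push Not at hnd
          obtain ⟨e, he1, he2, y, hy, hey⟩ := hnd
          rw [Finset.sum_insert hsL] at he2
          have hes : e s ≠ 0 := by
            intro h0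
            rw [h0, zero_smul, zero_add] at he2
            rcases Finset.mem_insert.mp hy with h | h
            · exact hey (h ▸ h0)
            · exact hey (hLd e he1 he2 y h)
          have hsq : e s * e s = 1 := by
            have h1 := he1 s
            rw [abs_le] at h1
            have h2 : e s = 1 ∨ e s = -1 := by omega
            rcases h2 with h | h <;> rw [h] <;> norm_num
          refine ⟨fun x => -(e s) * e x, fun _ => ⟨?_, ?_, ?_⟩⟩
          · intro x
            rw [abs_mul, abs_neg]
            calc |e s| * |e x| ≤ 1 * 1 :=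
                  mul_le_mul (he1 s) (he1 x) (abs_nonneg _) (by norm_num)
              _ = 1 := by norm_num
          · have h3 : ∑ x ∈ L, e x • x = -(e s • s) := by
              rw [eq_neg_iff_add_eq_zero, add_comm]
              exact he2
            have h4 : ∑ x ∈ L, (-(e s) * e x) • x = (-(e s)) • ∑ x ∈ L, e x • x := by
              rw [Finset.smul_sum]
              apply Finset.sum_congr rfl
              intro x _
              rw [mul_smul]
            rw [h4, h3, neg_smul, smul_neg, neg_neg, smul_smul, hsq, one_smul]
          · intro h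
            exact absurd h hsL
      · exact ⟨fun _ => 0, fun h => absurd h hs⟩
    choose f hf using key
    exact ⟨f, fun s hs => hf s hs⟩

end Pool.Agent.H793.AB
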