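import Pool.Agent.H793.AB.Fn

set_option autoImplicit false

open Set Metric Topology Finset
open scoped Pointwise unitInterval

namespace Pool.Agent.H793.AB

universe u

variable {G : Type u} [AddCommGroup G] [Fintype G] [DecidableEq G]

/-- the bound for groups of small exponent -/
theorem alg_exp (S : Finset G) (h0 : (0 : G) ∈ S) (hneg : ∀ s ∈ S, -s ∈ S)
    (hgen : AddSubgroup.closure (S : Set G) = ⊤) (e : ℕ) (he : 0 < e)
    (hexp : ∀ g : G, e • g = 0) :
    ∃ K : ℕ, (K : ℝ) ≤ 3 / 2 * (1 + Real.log (Fintype.card G)) * e ∧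
      ∀ g : G, ∃ f : Fin K → G, (∀ i, f i ∈ S) ∧ ∑ i, f i = g := by
  classical
  obtain ⟨Λ, hΛS, hcard, ε, hε⟩ := exists_dissoc S
  have hc0 : 0 < Fintype.card G := Fintype.card_pos
  have hc1 : (1 : ℝ) ≤ (Fintype.card G : ℝ) := by exact_mod_cast hc0
  have hL : 0 ≤ Real.log (Fintype.card G) := Real.log_nonneg hc1
  have hk0 : (0 : ℝ) ≤ Λ.card := Nat.cast_nonneg _
  have hkL : (Λ.card : ℝ) ≤ 3 / 2 * (1 + Real.log (Fintype.card G)) := by
    have h1 : (2 : ℝ) ^ Λ.card ≤ (Fintype.card G : ℝ) := by exact_mod_cast hcard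
    have h2 := Real.log_le_log (by positivity) h1
    rw [Real.log_pow] at h2
    have h3 : (2 / 3 : ℝ) ≤ Real.log 2 := by
      have := Real.log_two_gt_d9
      linarith
    have h4 : (Λ.card : ℝ) * (2 / 3) ≤ Λ.card * Real.log 2 := mul_le_mul_of_nonneg_left h3 hk0
    linarith
  refine ⟨Λ.card * e, ?_, fun g => ?_⟩
  · push_cast
    exact mul_le_mul_of_nonneg_right hkL (Nat.cast_nonneg e)
  · obtain ⟨y, hy⟩ := sp_gen S hgen Λ ε (fun s hs => (hε s hs).2.1) g
    have hez : (e : ℤ) ≠ 0 := by exact_mod_cast he.ne'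
    have hmod : ∀ x : G, (y x % (e : ℤ)) • x = y x • x := by
      intro x
      have h1 : y x • x = (y x % (e : ℤ) + e * (y x / e)) • x := by rw [Int.emod_add_mul_ediv]
      rw [h1, add_smul, mul_comm, mul_smul, natCast_zsmul, hexp, smul_zero, add_zero]
    obtain ⟨l, hl1, hl2, hl3⟩ := fn_list hneg (fun x => y x % (e : ℤ)) Λ hΛS
    have hlK : l.length ≤ Λ.card * e := by
      rw [hl1, ← smul_eq_mul]
      refine Finset.sum_le_card_nsmul _ _ _ fun x _ => ?_
      have h1 := Int.emod_nonneg (y x) hez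
      have h2 := Int.emod_lt_of_pos (y x) (by exact_mod_cast he : (0 : ℤ) < e)
      omega
    refine fn_toFin (l ++ List.replicate (Λ.card * e - l.length) 0) ?_ ?_ ?_
    · rw [List.length_append, List.length_replicate, Nat.add_sub_cancel' hlK]
    · intro a ha
      rw [List.mem_append] at ha
      rcases ha with ha | ha
      · exact hl2 a ha
      · rw [List.eq_of_mem_replicate ha]
        exact h0
    · rw [List.sum_append, List.sum_replicate, smul_zero, add_zero, hl3, ← hy]
      exact Finset.sum_congr rfl fun x _ => hmod x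

end Pool.Agent.H793.AB
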