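import Pool.Agent.H793.AB.Sp

set_option autoImplicit false

open Set Metric Topology Finset
open scoped Pointwise unitInterval

namespace Pool.Agent.H793.AB

universe u

variable {G : Type u} [AddCommGroup G] [Fintype G] [DecidableEq G]

omit [Fintype G] [DecidableEq G] in
theorem fn_toFin {S : Finset G} {K : ℕ} {g : G} (l : List G) (hl : l.length = K)
    (hS : ∀ a ∈ l, a ∈ S) (hg : l.sum = g) :
    ∃ f : Fin K → G, (∀ i, f i ∈ S) ∧ ∑ i, f i = g := by
  subst hl
  refine ⟨l.get, fun i => hS _ (List.get_mem l i), ?_⟩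
  rw [← List.sum_ofFn, List.ofFn_get]
  exact hg

omit [Fintype G] in
theorem fn_list {S : Finset G} (hneg : ∀ s ∈ S, -s ∈ S) (n : G → ℤ) (Λ : Finset G) :
    Λ ⊆ S → ∃ l : List G, l.length = ∑ x ∈ Λ, (n x).natAbs ∧ (∀ a ∈ l, a ∈ S) ∧
      l.sum = ∑ x ∈ Λ, n x • x := by
  induction Λ using Finset.induction_on with
  | empty =>
    intro _
    exact ⟨[], by simp, by simp, by simp⟩
  | insert a s ha ih =>
    intro h
    obtain ⟨l, h1, h2, h3⟩ := ih ((Finset.subset_insert a s).trans h)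
    have haS : a ∈ S := h (Finset.mem_insert_self a s)
    rcases Int.natAbs_eq (n a) with hna | hna
    · refine ⟨List.replicate (n a).natAbs a ++ l, ?_, ?_, ?_⟩
      · rw [List.length_append, List.length_replicate, Finset.sum_insert ha, h1]
      · intro b hb
        rw [List.mem_append] at hb
        rcases hb with hb | hb
        · rw [List.eq_of_mem_replicate hb]
          exact haS
        · exact h2 b hb
      · rw [List.sum_append, List.sum_replicate, Finset.sum_insert ha, h3]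
        congr 1
        conv_rhs => rw [hna]
        rw [natCast_zsmul]
    · refine ⟨List.replicate (n a).natAbs (-a) ++ l, ?_, ?_, ?_⟩
      · rw [List.length_append, List.length_replicate, Finset.sum_insert ha, h1]
      · intro b hb
        rw [List.mem_append] at hb
        rcases hb with hb | hb
        · rw [List.eq_of_mem_replicate hb]
          exact hneg a haS
        · exact h2 b hb
      · rw [List.sum_append, List.sum_replicate, Finset.sum_insert ha, h3]
        congr 1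
        conv_rhs => rw [hna]
        rw [neg_zsmul, natCast_zsmul, smul_neg]

theorem fn_sq_rpow {x : ℝ} (hx : 0 ≤ x) : (x ^ (3 / 2 : ℝ)) ^ 2 = x ^ 3 := by
  rw [← Real.rpow_natCast (x ^ (3 / 2 : ℝ)) 2, ← Real.rpow_mul hx, ← Real.rpow_natCast x 3]
  norm_num

/-- B4: the algebraic bound with exponent `3/2` -/
theorem alg_bound' (S : Finset G) (h0 : (0 : G) ∈ S) (hneg : ∀ s ∈ S, -s ∈ S)
    (hgen : AddSubgroup.closure (S : Set G) = ⊤)
    (hθ : ∀ θ : G → ℝ, (∀ a ∈ S, ∀ b ∈ S, a + b ∈ S → θ (a + b) = θ a + θ b) →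
      ∀ s ∈ S, θ s = 0) :
    ∃ K : ℕ, (K : ℝ) ≤ 3 * (1 + Real.log (Fintype.card G)) ^ (3 / 2 : ℝ) ∧
      ∀ g : G, ∃ f : Fin K → G, (∀ i, f i ∈ S) ∧ ∑ i, f i = g := by
  obtain ⟨Λ, hΛS, hcard, hrep⟩ := exists_l2 S hgen hθ
  have hc0 : 0 < Fintype.card G := Fintype.card_pos
  have hc1 : (1 : ℝ) ≤ (Fintype.card G : ℝ) := by exact_mod_cast hc0
  have hL : 0 ≤ Real.log (Fintype.card G) := Real.log_nonneg hc1
  obtain ⟨k, hk⟩ : ∃ k : ℕ, k = Λ.card := ⟨_, rfl⟩
  rw [← hk] at hcard hrep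
  have hk0 : (0 : ℝ) ≤ k := Nat.cast_nonneg k
  have hkL : (k : ℝ) ≤ 3 / 2 * (1 + Real.log (Fintype.card G)) := by
    have h1 : (2 : ℝ) ^ k ≤ (Fintype.card G : ℝ) := by exact_mod_cast hcard
    have h2 := Real.log_le_log (by positivity) h1
    rw [Real.log_pow] at h2
    have h3 : (2 / 3 : ℝ) ≤ Real.log 2 := by
      have := Real.log_two_gt_d9
      linarith
    have h4 : (k : ℝ) * (2 / 3) ≤ k * Real.log 2 := mul_le_mul_of_nonneg_left h3 hk0
    linarith
  have hkr : 0 ≤ (k : ℝ) ^ (3 / 2 : ℝ) := Real.rpow_nonneg hk0 _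
  refine ⟨⌊3 / 2 * (k : ℝ) ^ (3 / 2 : ℝ)⌋₊, ?_, fun g => ?_⟩
  · have h1 : ((⌊3 / 2 * (k : ℝ) ^ (3 / 2 : ℝ)⌋₊ : ℕ) : ℝ) ≤ 3 / 2 * (k : ℝ) ^ (3 / 2 : ℝ) :=
      Nat.floor_le (by positivity)
    have h2 : (k : ℝ) ^ (3 / 2 : ℝ) ≤ (3 / 2 * (1 + Real.log (Fintype.card G))) ^ (3 / 2 : ℝ) :=
      Real.rpow_le_rpow hk0 hkL (by norm_num)
    rw [Real.mul_rpow (by norm_num) (by linarith)] at h2
    have h3 : (3 / 2 : ℝ) ^ (3 / 2 : ℝ) ≤ 2 := by
      rw [← pow_le_pow_iff_left₀ (Real.rpow_nonneg (by norm_num) _) (by norm_num) two_ne_zero,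
        fn_sq_rpow (by norm_num)]
      norm_num
    have h4 : 0 ≤ (1 + Real.log (Fintype.card G)) ^ (3 / 2 : ℝ) :=
      Real.rpow_nonneg (by linarith) _
    have h5 := mul_le_mul_of_nonneg_right h3 h4
    linarith
  · obtain ⟨n, hn, hn2⟩ := hrep g
    obtain ⟨l, hl1, hl2, hl3⟩ := fn_list hneg n Λ hΛS
    have hlen : (l.length : ℝ) ≤ 3 / 2 * (k : ℝ) ^ (3 / 2 : ℝ) := by
      have h1 : (l.length : ℝ) = ∑ x ∈ Λ, |(n x : ℝ)| := by
        rw [hl1]
        push_cast
        apply Finset.sum_congr rfl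
        intro x _
        rw [Nat.cast_natAbs]
        push_cast
        rfl
      rw [h1, ← pow_le_pow_iff_left₀ (Finset.sum_nonneg fun x _ => abs_nonneg _) (by positivity)
        two_ne_zero]
      have h2 := sq_sum_le_card_mul_sum_sq (s := Λ) (f := fun x => |(n x : ℝ)|)
      simp only [sq_abs] at h2
      rw [← hk] at h2
      refine h2.trans ?_
      rw [mul_pow, fn_sq_rpow hk0]
      have h3 := mul_le_mul_of_nonneg_left hn2 hk0
      refine h3.trans (le_of_eq ?_)
      ring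
    have hlK : l.length ≤ ⌊3 / 2 * (k : ℝ) ^ (3 / 2 : ℝ)⌋₊ := Nat.le_floor hlen
    refine fn_toFin (l ++ List.replicate (⌊3 / 2 * (k : ℝ) ^ (3 / 2 : ℝ)⌋₊ - l.length) 0) ?_ ?_ ?_
    · rw [List.length_append, List.length_replicate, Nat.add_sub_cancel' hlK]
    · intro a ha
      rw [List.mem_append] at ha
      rcases ha with ha | ha
      · exact hl2 a ha
      · rw [List.eq_of_mem_replicate ha]
        exact h0
    · rw [List.sum_append, List.sum_replicate, smul_zero, add_zero, hl3, hn]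

end Pool.Agent.H793.AB
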