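import Pool.Agent.H793.AB.Pc
import Pool.Agent.H793.AB.Ln

set_option autoImplicit false

open Set Metric Topology Finset
open scoped Pointwise unitInterval

namespace Pool.Agent.H793.AB

universe u

variable {X : Type u} [MetricSpace X]

theorem hp_len_subpath {x y : X} (β : Path x y) {s t : I} (h : s ≤ t) :
    len (β.subpath s t) ≤ len β := by
  unfold len
  have hm : Monotone (Set.Icc.convexComb s t) := by
    intro a b hab
    have h1 : (a : ℝ) ≤ b := hab
    have h2 : (s : ℝ) ≤ t := h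
    rw [← Subtype.coe_le_coe]
    simp only [Set.Icc.coe_convexComb]
    nlinarith
  exact eVariationOn.comp_le_of_monotoneOn (fun r : I => β r) _ (hm.monotoneOn _)
    (fun _ _ => Set.mem_univ _)

/-- T6: the classes of the initial parts of a path -/
theorem hc_partial {δ ε : ℝ} (hε : 0 < ε) (hεδ : 2 * ε ≤ δ) (hS : Small X δ) {x₀ : X}
    (c : ∀ x, Path x₀ x) (q : ∀ x y, Path x y)
    (hq : ∀ x y, dist x y < ε → ∀ t, dist x (q x y t) < 2 * ε) {x y : X} (β : Path x y) :
    ∃ N : ℕ, ∀ n ≥ N, ∃ a : ℕ → H1 x₀, a 0 = 0 ∧ a n = hc c β ∧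
      (∀ i < n, dist (β (pt n i)) (β (pt n (i + 1))) < ε ∧
        a (i + 1) = a i + hc c (q (β (pt n i)) (β (pt n (i + 1))))) ∧
      ∀ i ≤ n, ∃ (z : X) (β' : Path x z), len β' ≤ len β ∧ hc c β' = a i := by
  have hu : UniformContinuous (fun t : I => β t) :=
    CompactSpace.uniformContinuous_of_continuous β.continuous
  obtain ⟨η, hη, hγ⟩ := Metric.uniformContinuous_iff.1 hu ε hε
  obtain ⟨N, hN⟩ := exists_nat_gt (1 / η)
  refine ⟨N + 1, fun n hn => ?_⟩
  have hn0 : 0 < n := by omega
  have hnr : (0 : ℝ) < n := by exact_mod_cast hn0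
  have hn1 : 1 / (n : ℝ) < η := by
    rw [div_lt_comm₀ hnr hη]
    refine hN.trans_le ?_
    exact_mod_cast (by omega : N ≤ n)
  refine ⟨fun i => hc c (β.subpath (pt n 0) (pt n i)), ?_, ?_, ?_, ?_⟩
  · show hc c (β.subpath (pt n 0) (pt n 0)) = 0
    rw [Path.subpath_self, pc_hc_refl]
  · show hc c (β.subpath (pt n 0) (pt n n)) = hc c β
    rw [pc_pt_zero, pc_pt_self hn0, Path.subpath_zero_one, pc_hc_cast]
  · intro i hin
    have hlow : ((pt n i : I) : ℝ) = (i : ℝ) / n := pc_pt_coe hn0 hin.le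
    have hup : ((pt n (i + 1) : I) : ℝ) = ((i + 1 : ℕ) : ℝ) / n := pc_pt_coe hn0 hin
    have hdiff : ((pt n (i + 1) : I) : ℝ) - ((pt n i : I) : ℝ) = 1 / n := by
      rw [hlow, hup, ← sub_div]
      push_cast
      ring
    have hle : pt n i ≤ pt n (i + 1) := by
      rw [← Subtype.coe_le_coe]
      have : (0 : ℝ) < 1 / n := by positivity
      linarith
    have hg : ∀ t, dist (β (pt n i)) (β.subpath (pt n i) (pt n (i + 1)) t) < ε := by
      intro t
      have hm : β.subpath (pt n i) (pt n (i + 1)) t ∈ range (β.subpath (pt n i) (pt n (i + 1))) :=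
        ⟨t, rfl⟩
      rw [Path.range_subpath_of_le β _ _ hle] at hm
      obtain ⟨s, hs, hs'⟩ := hm
      rw [← hs']
      refine hγ ?_
      rw [Subtype.dist_eq, Real.dist_eq, abs_sub_comm, abs_of_nonneg]
      · have h1 : (s : ℝ) ≤ ((pt n (i + 1) : I) : ℝ) := hs.2
        linarith
      · have h1 : ((pt n i : I) : ℝ) ≤ (s : ℝ) := hs.1
        linarith
    have hxy : dist (β (pt n i)) (β (pt n (i + 1))) < ε := by
      have := hg 1
      rwa [Path.target] at this
    refine ⟨hxy, ?_⟩
    have hloop := hS (β (pt n i)) ((β.subpath (pt n i) (pt n (i + 1))).trans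
      (q (β (pt n i)) (β (pt n (i + 1)))).symm) (fun t => pc_trans_dist _ _ _ _
        (fun t => (hg t).trans_le (by linarith)) (fun t => by
          rw [Path.symm_apply]
          exact (hq _ _ hxy _).trans_le hεδ) t)
    have h2 := hc_homotopic c hloop
    rw [hc_trans, hc_symm, pc_hc_refl] at h2
    have h3 : hc c (β.subpath (pt n i) (pt n (i + 1))) =
        hc c (q (β (pt n i)) (β (pt n (i + 1)))) :=
      eq_of_sub_eq_zero (by rw [sub_eq_add_neg]; exact h2)
    show hc c (β.subpath (pt n 0) (pt n (i + 1))) = hc c (β.subpath (pt n 0) (pt n i)) +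
      hc c (q (β (pt n i)) (β (pt n (i + 1))))
    rw [← h3, ← hc_trans]
    exact (hc_homotopic c
      ⟨Path.Homotopy.subpathTransSubpath β (pt n 0) (pt n i) (pt n (i + 1))⟩).symm
  · intro i hi
    have hx : β (pt n 0) = x := by rw [pc_pt_zero, Path.source]
    refine ⟨β (pt n i), (β.subpath (pt n 0) (pt n i)).cast hx.symm rfl, ?_, ?_⟩
    · refine le_trans (le_of_eq rfl) (hp_len_subpath β ?_)
      rw [pc_pt_zero]
      exact (pt n i).2.1
    · rw [pc_hc_cast]

end Pool.Agent.H793.AB
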