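import Pool.Agent.H793.AB.Al4
import Pool.Agent.H793.AB.Bad

set_option autoImplicit false

open Set Metric Topology Finset
open scoped Pointwise unitInterval

namespace Pool.Agent.H793.AB

universe u

/-- The points of the universal abelian cover over `x` are the classes of the paths `α` from `x₀`
to `x`, where `α` and `α'` are identified if `h1 (α.trans α'.symm) = 0`. The distance of the classes of
`α` and `β` in the lifted length metric: the infimum of the lengths of the paths `γ` of `X` whose lift
to the cover goes from the class of `α` to the class of `β`. -/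
noncomputable def coverDist {X : Type u} [MetricSpace X] {x₀ x y : X} (α : Path x₀ x)
    (β : Path x₀ y) : ENNReal :=
  ⨅ (γ : Path x y) (_ : h1 ((α.trans γ).trans β.symm) = 0), len γ

/-- The diameter of the universal abelian cover. -/
noncomputable def coverDiam {X : Type u} [MetricSpace X] (x₀ : X) : ENNReal :=
  ⨆ (x : X) (y : X) (α : Path x₀ x) (β : Path x₀ y), coverDist α β

/-- M0: the trivial case -/
theorem coverDiam_zero {X : Type u} [MetricSpace X] [CompactSpace X] (x₀ : X)
    (hD : Metric.diam (Set.univ : Set X) = 0) : coverDiam x₀ = 0 := by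
  have hsub : Subsingleton X := by
    refine ⟨fun x y => ?_⟩
    have h1 : dist x y ≤ Metric.diam (Set.univ : Set X) :=
      Metric.dist_le_diam_of_mem isCompact_univ.isBounded (Set.mem_univ _) (Set.mem_univ _)
    rw [hD] at h1
    exact dist_le_zero.mp h1
  refine le_antisymm ?_ bot_le
  unfold coverDiam
  refine iSup_le fun x => iSup_le fun y => iSup_le fun α => iSup_le fun β => ?_
  have hx : x = x₀ := Subsingleton.elim _ _
  have hy : y = x₀ := Subsingleton.elim _ _
  subst hx
  subst hy
  unfold coverDist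
  refine (iInf₂_le (Path.refl _) ?_).trans ?_
  · have h2 : (α.trans (Path.refl _)).trans β.symm = Path.refl _ := by
      apply Path.ext
      funext t
      exact Subsingleton.elim _ _
    rw [h2]
    exact h1_refl _
  · rw [len_refl]

/-- concatenation of loops -/
theorem concat_loops {X : Type u} [MetricSpace X] {x₀ : X} (n : ℕ) :
    ∀ l : Fin n → Path x₀ x₀, ∃ p : Path x₀ x₀, len p = ∑ i, len (l i) ∧ h1 p = ∑ i, h1 (l i) := by
  induction n with
  | zero =>
    intro l
    refine ⟨Path.refl x₀, ?_, ?_⟩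
    · rw [len_refl, Finset.univ_eq_empty, Finset.sum_empty]
    · rw [h1_refl, Finset.univ_eq_empty, Finset.sum_empty]
  | succ n ih =>
    intro l
    obtain ⟨p, hp1, hp2⟩ := ih fun i => l i.succ
    refine ⟨(l 0).trans p, ?_, ?_⟩
    · rw [len_trans, hp1, Fin.sum_univ_succ]
    · rw [h1_trans, hp2, Fin.sum_univ_succ]

theorem hc_c {X : Type u} [MetricSpace X] {x₀ : X} (c : ∀ x, Path x₀ x) (x : X) :
    hc c (c x) = hc c (c x₀) := by
  have h := h1_triple c (c x₀) (c x) (c x)
  rw [add_sub_cancel_right] at h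
  exact h

/-- M1 -/
theorem coverDiam_le {X : Type u} [MetricSpace X] [CompactSpace X] (hL : IsLength X)
    (hS : SLSC X) (x₀ : X) [Finite (H1 x₀)] :
    coverDiam x₀ ≤ ENNReal.ofReal (104 * (1 + Real.log (Nat.card (H1 x₀))) ^ 2 *
      Metric.diam (Set.univ : Set X)) := by
  classical
  by_cases hD0 : Metric.diam (Set.univ : Set X) = 0
  · rw [coverDiam_zero x₀ hD0]
    exact bot_le
  have hD : 0 < Metric.diam (Set.univ : Set X) :=
    lt_of_le_of_ne Metric.diam_nonneg (Ne.symm hD0)
  obtain ⟨D, hDe⟩ : ∃ D, D = Metric.diam (Set.univ : Set X) := ⟨_, rfl⟩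
  have := Fintype.ofFinite (H1 x₀)
  obtain ⟨K, hK, hrep⟩ := alg_bound
    ((Finset.univ : Finset (H1 x₀)).filter fun g => ∃ l : Path x₀ x₀,
      len l ≤ ENNReal.ofReal (5 * Metric.diam (Set.univ : Set X)) ∧ h1 l = g)
    (by
      rw [Finset.mem_filter]
      refine ⟨Finset.mem_univ _, Path.refl x₀, ?_, h1_refl x₀⟩
      rw [len_refl]
      exact bot_le)
    (by
      intro χ hχ
      obtain ⟨γ, hγ1, hγ2⟩ := exists_bad hL hS x₀ hD χ hχ
      exact ⟨h1 γ, Finset.mem_filter.mpr ⟨Finset.mem_univ _, γ, hγ1, rfl⟩, hγ2⟩)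
  rw [← hDe] at hD ⊢
  simp only [← hDe] at hrep
  have hc0 : ∀ x, ∃ γ : Path x₀ x, len γ ≤ ENNReal.ofReal (2 * D) := by
    intro x
    obtain ⟨γ, hγ⟩ := hL x₀ x D hD
    refine ⟨γ, hγ.trans (ENNReal.ofReal_le_ofReal ?_)⟩
    have h1 : dist x₀ x ≤ Metric.diam (Set.univ : Set X) :=
      Metric.dist_le_diam_of_mem isCompact_univ.isBounded (Set.mem_univ _) (Set.mem_univ _)
    rw [← hDe] at h1
    linarith
  choose c hcl using hc0
  unfold coverDiam
  refine iSup_le fun x => iSup_le fun y => iSup_le fun α => iSup_le fun β => ?_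
  obtain ⟨f, hf1, hf2⟩ := hrep (hc c β - hc c α)
  have hl : ∀ i, ∃ l : Path x₀ x₀, len l ≤ ENNReal.ofReal (5 * D) ∧ h1 l = f i := fun i =>
    (Finset.mem_filter.mp (hf1 i)).2
  choose l hl1 hl2 using hl
  obtain ⟨p, hp1, hp2⟩ := concat_loops K l
  have hp3 : h1 p = hc c β - hc c α := by
    rw [hp2, ← hf2]
    exact Finset.sum_congr rfl fun i _ => hl2 i
  unfold coverDist
  refine (iInf₂_le (((c x).symm.trans p).trans (c y)) ?_).trans ?_
  · rw [h1_triple c, hc_trans, hc_trans, hc_symm, hc_loop, hc_c c x, hc_c c y, hp3]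
    abel
  · rw [len_trans, len_trans, len_symm, hp1]
    have hsum : ∑ i, len (l i) ≤ ENNReal.ofReal (K * (5 * D)) := by
      calc ∑ i, len (l i) ≤ ∑ _i : Fin K, ENNReal.ofReal (5 * D) :=
            Finset.sum_le_sum fun i _ => hl1 i
        _ = ENNReal.ofReal (K * (5 * D)) := by
          rw [Finset.sum_const, Finset.card_univ, Fintype.card_fin, nsmul_eq_mul,
            ENNReal.ofReal_mul (by positivity : (0 : ℝ) ≤ (K : ℝ)), ENNReal.ofReal_natCast]
    calc len (c x) + ∑ i, len (l i) + len (c y)
        ≤ ENNReal.ofReal (2 * D) + ENNReal.ofReal (K * (5 * D)) + ENNReal.ofReal (2 * D) :=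
          add_le_add (add_le_add (hcl x) hsum) (hcl y)
      _ = ENNReal.ofReal (2 * D + K * (5 * D) + 2 * D) := by
          rw [← ENNReal.ofReal_add (by positivity) (by positivity),
            ← ENNReal.ofReal_add (by positivity) (by positivity)]
      _ ≤ _ := by
          refine ENNReal.ofReal_le_ofReal ?_
          rw [Nat.card_eq_fintype_card]
          have hcard : (1 : ℝ) ≤ (Fintype.card (H1 x₀) : ℝ) := by
            have : 0 < Fintype.card (H1 x₀) := Fintype.card_pos
            exact_mod_cast this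
          have hlog : 0 ≤ Real.log (Fintype.card (H1 x₀)) := Real.log_nonneg hcard
          have h5 : (1 : ℝ) ≤ (1 + Real.log (Fintype.card (H1 x₀))) ^ 2 := by nlinarith
          have h6 : (2 + K * 5 + 2 : ℝ) ≤ 104 * (1 + Real.log (Fintype.card (H1 x₀))) ^ 2 := by
            linarith
          calc 2 * D + K * (5 * D) + 2 * D = (2 + K * 5 + 2 : ℝ) * D := by ring
            _ ≤ 104 * (1 + Real.log (Fintype.card (H1 x₀))) ^ 2 * D :=
              mul_le_mul_of_nonneg_right h6 hD.le

end Pool.Agent.H793.AB
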