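import Pool.Agent.H793.AB.Hp

set_option autoImplicit false

open Set Metric Topology Finset
open scoped Pointwise unitInterval

namespace Pool.Agent.H793.AB

universe u

variable {X : Type u} [MetricSpace X]

/-- The classes of the loops `c x · β · (c y)⁻¹`, `β` a path from `x` to `y` of length at most
`2 diam X`. -/
def SS {x₀ : X} (c : ∀ x, Path x₀ x) : Set (H1 x₀) :=
  {a | ∃ (x y : X) (β : Path x y),
    len β ≤ ENNReal.ofReal (2 * Metric.diam (Set.univ : Set X)) ∧ hc c β = a}

end Pool.Agent.H793.AB
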