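import Pool.Agent.H793.AB.S2d
import Pool.Agent.H793.AB.SSd
import Pool.Agent.H793.AB.Cc
import Pool.Agent.H793.AB.Sm1

set_option autoImplicit false

open Set Metric Topology Finset
open scoped Pointwise unitInterval

namespace Pool.Agent.H793.AB

universe u

variable {X : Type u} [MetricSpace X]

/-- T7: a real function which is additive on `SS c` vanishes on `SS c` -/
theorem coc_zero [CompactSpace X] (hL : IsLength X) (hS : SLSC X) (x₀ : X) [Finite (H1 x₀)]
    (hD : 0 < Metric.diam (Set.univ : Set X)) (c : ∀ x, Path x₀ x)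
    (hlen : ∀ x, len (c x) ≤ ENNReal.ofReal (2 * Metric.diam (Set.univ : Set X)))
    (θ : H1 x₀ → ℝ)
    (hθ : ∀ a ∈ SS c, ∀ b ∈ SS c, a + b ∈ SS c → θ (a + b) = θ a + θ b) :
    ∀ s ∈ SS c, θ s = 0 := by
  obtain ⟨D, hDdef⟩ : ∃ D : ℝ, D = Metric.diam (Set.univ : Set X) := ⟨_, rfl⟩
  rw [← hDdef] at hD
  simp only [← hDdef] at hlen
  obtain ⟨δ, hδ, hSm⟩ := small_of_slsc hL hS
  obtain ⟨ε, hεdef⟩ : ∃ ε : ℝ, ε = min (δ / 4) D := ⟨_, rfl⟩
  have hε : 0 < ε := by rw [hεdef]; exact lt_min (by linarith) hD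
  have hε4 : 4 * ε ≤ δ := by have := min_le_left (δ / 4) D; rw [← hεdef] at this; linarith
  have hεD : ε ≤ D := by rw [hεdef]; exact min_le_right _ _
  choose q hqlen using fun x y : X => hL x y ε hε
  have hq : ∀ x y, dist x y < ε → ∀ t, dist x (q x y t) < 2 * ε := by
    intro x y hxy t
    have h1 := (dist_le_len (q x y) 0 t).trans (hqlen x y)
    rw [(q x y).source] at h1
    have h2 : dist x (q x y t) ≤ dist x y + ε :=
      (ENNReal.ofReal_le_ofReal_iff (by positivity)).1 h1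
    linarith
  have hmem : ∀ {x y : X} (β : Path x y), len β ≤ ENNReal.ofReal (2 * D) → hc c β ∈ SS c := by
    intro x y β hβ
    rw [hDdef] at hβ
    exact ⟨x, y, β, hβ, rfl⟩
  have hqS : ∀ x y, dist x y < ε → hc c (q x y) ∈ SS c := by
    intro x y hxy
    exact hmem _ ((hqlen x y).trans (ENNReal.ofReal_le_ofReal (by linarith)))
  have h0S : (0 : H1 x₀) ∈ SS c := by
    have h1 := hmem (Path.refl x₀) (by rw [len_refl]; exact bot_le)
    rwa [cl_hc_refl] at h1
  have h00 : θ 0 = 0 := by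
    have h1 := hθ 0 h0S 0 h0S (by rw [add_zero]; exact h0S)
    rw [add_zero] at h1
    linarith
  have hcoc : Coc (fun x y => θ (hc c (q x y))) ε := by
    intro x y z hxy hyz hxz
    have h1 := hc_coc hε hε4 hSm c q hq x y z hxy hyz hxz
    have h2 := hθ _ (hqS x y hxy) _ (hqS y z hyz) (by rw [← h1]; exact hqS x z hxz)
    rw [← h1] at h2
    exact h2
  have hphi : ∀ {x y : X} (β : Path x y), len β ≤ ENNReal.ofReal (2 * D) →
      phi hε hcoc β = θ (hc c β) := by
    intro x y β hβ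
    obtain ⟨N₁, h₁⟩ := phi_spec hε hcoc β
    obtain ⟨N₂, h₂⟩ := hc_partial hε (by linarith : 2 * ε ≤ δ) hSm c q hq β
    rw [← h₁ (max N₁ N₂) (le_max_left _ _)]
    obtain ⟨a, ha0, han, hstep, hlast⟩ := h₂ (max N₁ N₂) (le_max_right _ _)
    have haS : ∀ i ≤ max N₁ N₂, a i ∈ SS c := by
      intro i hi
      obtain ⟨z, β', h3, h4⟩ := hlast i hi
      rw [← h4]
      exact hmem β' (h3.trans hβ)
    have htel : ∀ m, m ≤ max N₁ N₂ →
        ∑ i ∈ Finset.range m, θ (hc c (q (β (pt (max N₁ N₂) i)) (β (pt (max N₁ N₂) (i + 1))))) =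
          θ (a m) := by
      intro m
      induction m with
      | zero => intro _; rw [Finset.sum_range_zero, ha0, h00]
      | succ m ih =>
        intro hm
        rw [Finset.sum_range_succ, ih (by omega)]
        obtain ⟨h5, h6⟩ := hstep m (by omega)
        have h7 := hθ _ (haS m (by omega)) _ (hqS _ _ h5) (by rw [← h6]; exact haS (m + 1) hm)
        rw [h6, h7]
    have h8 := htel (max N₁ N₂) le_rfl
    rw [han] at h8
    exact h8
  have hk : ∀ x, hc c (c x) = hc c (c x₀) := by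
    intro x
    have h3 := h1_triple c (c x₀) (c x) (c x)
    have h2 : hc c (c x) = h1 (((c x₀).trans (c x)).trans (c x).symm) := rfl
    rw [add_sub_cancel_right] at h3
    exact h2.trans h3
  have hneg : ∀ a, a ∈ SS c → -a ∈ SS c → θ (-a) = - θ a := by
    intro a ha ha'
    have h1 := hθ a ha (-a) ha' (by rw [add_neg_cancel]; exact h0S)
    rw [add_neg_cancel, h00] at h1
    linarith
  rintro s ⟨x, y, β, hβ, rfl⟩
  rw [← hDdef] at hβ
  obtain ⟨N₁, h₁⟩ := phi_spec hε hcoc (((c x).trans β).trans (c y).symm)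
  obtain ⟨N₂, h₂⟩ := sm_loop_zero hε hcoc x₀ (((c x).trans β).trans (c y).symm)
  have e1 : phi hε hcoc (((c x).trans β).trans (c y).symm) = 0 := by
    rw [← h₁ (max N₁ N₂) (le_max_left _ _), h₂ (max N₁ N₂) (le_max_right _ _)]
  have hsy : len (c y).symm ≤ ENNReal.ofReal (2 * D) := by rw [len_symm]; exact hlen y
  rw [phi_trans, phi_trans, hphi _ (hlen x), hphi _ hβ, hphi _ hsy, hc_symm, hk x, hk y] at e1
  have e2 := hneg (hc c (c x₀)) (hmem _ (hlen x₀)) (by
    rw [← hk y, ← hc_symm]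
    exact hmem _ hsy)
  rw [e2] at e1
  linarith

end Pool.Agent.H793.AB
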