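import Pool.Agent.H793.AB.SSd
import Pool.Agent.H793.AB.Sm1

set_option autoImplicit false

open Set Metric Topology Finset
open scoped Pointwise unitInterval

namespace Pool.Agent.H793.AB

universe u

variable {X : Type u} [MetricSpace X]

/-- T8: the elements of `SS c` are classes of short loops, `SS c` is symmetric and generates -/
theorem SS_facts [CompactSpace X] (hL : IsLength X) (hS : SLSC X) (x₀ : X)
    (hD : 0 < Metric.diam (Set.univ : Set X)) (c : ∀ x, Path x₀ x)
    (hlen : ∀ x, len (c x) ≤ ENNReal.ofReal (2 * Metric.diam (Set.univ : Set X))) :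
    (∀ s ∈ SS c, ∃ γ : Path x₀ x₀,
      len γ ≤ ENNReal.ofReal (6 * Metric.diam (Set.univ : Set X)) ∧ h1 γ = s) ∧
    (0 : H1 x₀) ∈ SS c ∧ (∀ s ∈ SS c, -s ∈ SS c) ∧ AddSubgroup.closure (SS c) = ⊤ := by
  refine ⟨?_, ?_, ?_, ?_⟩
  · rintro s ⟨x, y, β, hβ, rfl⟩
    refine ⟨((c x).trans β).trans (c y).symm, ?_, rfl⟩
    rw [len_trans, len_trans, len_symm]
    have h6 : (6 : ℝ) * Metric.diam (Set.univ : Set X) =
        2 * Metric.diam (Set.univ : Set X) + 2 * Metric.diam (Set.univ : Set X) +
          2 * Metric.diam (Set.univ : Set X) := by ring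
    rw [h6, ENNReal.ofReal_add (by positivity) (by positivity),
      ENNReal.ofReal_add (by positivity) (by positivity)]
    exact add_le_add (add_le_add (hlen x) hβ) (hlen y)
  · refine ⟨x₀, x₀, Path.refl x₀, ?_, pc_hc_refl c x₀⟩
    rw [len_refl]
    exact bot_le
  · rintro s ⟨x, y, β, hβ, rfl⟩
    refine ⟨y, x, β.symm, ?_, hc_symm c β⟩
    rw [len_symm]
    exact hβ
  · obtain ⟨δ, hδ, hsm⟩ := small_of_slsc hL hS
    set ε : ℝ := min (δ / 2) (Metric.diam (Set.univ : Set X)) with hε
    have hε0 : 0 < ε := lt_min (half_pos hδ) hD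
    have hε1 : 2 * ε ≤ δ := by
      have := min_le_left (δ / 2) (Metric.diam (Set.univ : Set X))
      linarith
    have hε2 : ε ≤ Metric.diam (Set.univ : Set X) := min_le_right _ _
    choose q hq using fun x y : X => hL x y ε hε0
    have hq' : ∀ x y, dist x y < ε → ∀ t, dist x (q x y t) < 2 * ε := by
      intro x y hxy t
      have h1 := (dist_le_len (q x y) 0 t).trans (hq x y)
      rw [(q x y).source] at h1
      have h2 : dist x (q x y t) ≤ dist x y + ε :=
        (ENNReal.ofReal_le_ofReal_iff (by have := dist_nonneg (x := x) (y := y); linarith)).1 h1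
      linarith
    rw [eq_top_iff]
    intro a _
    obtain ⟨γ, rfl⟩ := h1_surj a
    obtain ⟨N, hN⟩ := hc_partial hε0 hε1 hsm c q hq' γ
    obtain ⟨b, hb0, hbn, hb, -⟩ := hN N le_rfl
    have key : ∀ i ≤ N, b i ∈ AddSubgroup.closure (SS c) := by
      intro i
      induction i with
      | zero =>
        intro _
        rw [hb0]
        exact AddSubgroup.zero_mem _
      | succ i ih =>
        intro hi
        obtain ⟨h1, h2⟩ := hb i hi
        rw [h2]
        refine AddSubgroup.add_mem _ (ih (by omega)) (AddSubgroup.subset_closure ?_)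
        refine ⟨_, _, q (γ (pt N i)) (γ (pt N (i + 1))), (hq _ _).trans ?_, rfl⟩
        apply ENNReal.ofReal_le_ofReal
        linarith
    rw [← hc_loop c γ, ← hbn]
    exact key N le_rfl

end Pool.Agent.H793.AB
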