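import Pool.Agent.H793.AB.Main
import Pool.Agent.H793.AB.Ex
import Pool.Agent.H793.AB.Van
import Pool.Agent.H793.AB.Van2

set_option autoImplicit false

open Set Metric Topology Finset
open scoped Pointwise unitInterval

namespace Pool.Agent.H793.AB

universe u

/-- M3 -/
theorem coverDiam_le_exp {X : Type u} [MetricSpace X] [CompactSpace X] (hL : IsLength X)
    (hS : SLSC X) (x₀ : X) [Finite (H1 x₀)] (e : ℕ) (he : 0 < e) (hexp : ∀ a : H1 x₀, e • a = 0) :
    coverDiam x₀ ≤ ENNReal.ofReal (13 * e * (1 + Real.log (Nat.card (H1 x₀))) *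
      Metric.diam (Set.univ : Set X)) := by
  classical
  by_cases hD0 : Metric.diam (Set.univ : Set X) = 0
  · rw [coverDiam_zero x₀ hD0]
    exact bot_le
  have hD : 0 < Metric.diam (Set.univ : Set X) :=
    lt_of_le_of_ne Metric.diam_nonneg (Ne.symm hD0)
  have := Fintype.ofFinite (H1 x₀)
  have hc0 : ∀ x, ∃ γ : Path x₀ x, len γ ≤ ENNReal.ofReal (2 * Metric.diam (Set.univ : Set X)) := by
    intro x
    obtain ⟨γ, hγ⟩ := hL x₀ x _ hD
    refine ⟨γ, hγ.trans (ENNReal.ofReal_le_ofReal ?_)⟩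
    have h1 : dist x₀ x ≤ Metric.diam (Set.univ : Set X) :=
      Metric.dist_le_diam_of_mem isCompact_univ.isBounded (Set.mem_univ _) (Set.mem_univ _)
    linarith
  choose c hcl using hc0
  obtain ⟨hSl, hS0, hSn, hSg⟩ := SS_facts hL hS x₀ hD c hcl
  have hmem : ∀ a : H1 x₀, a ∈ (Set.toFinite (SS c)).toFinset ↔ a ∈ SS c := fun a =>
    Set.Finite.mem_toFinset _
  obtain ⟨K, hK, hrep⟩ := alg_exp (Set.toFinite (SS c)).toFinset
    ((hmem _).2 hS0)
    (fun s hs => (hmem _).2 (hSn s ((hmem s).1 hs)))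
    (by rw [Set.Finite.coe_toFinset]; exact hSg)
    e he hexp
  obtain ⟨D, hDe⟩ : ∃ D, D = Metric.diam (Set.univ : Set X) := ⟨_, rfl⟩
  rw [← hDe] at hD hSl hcl ⊢
  unfold coverDiam
  refine iSup_le fun x => iSup_le fun y => iSup_le fun α => iSup_le fun β => ?_
  obtain ⟨f, hf1, hf2⟩ := hrep (hc c β - hc c α)
  have hl : ∀ i, ∃ l : Path x₀ x₀, len l ≤ ENNReal.ofReal (6 * D) ∧ h1 l = f i := fun i =>
    hSl (f i) ((hmem _).1 (hf1 i))
  choose l hl1 hl2 using hl
  obtain ⟨p, hp1, hp2⟩ := concat_loops K l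
  have hp3 : h1 p = hc c β - hc c α := by
    rw [hp2, ← hf2]
    exact Finset.sum_congr rfl fun i _ => hl2 i
  unfold coverDist
  refine (iInf₂_le (((c x).symm.trans p).trans (c y)) ?_).trans ?_
  · rw [h1_triple c, hc_trans, hc_trans, hc_symm, hc_loop, hc_c c x, hc_c c y, hp3]
    abel
  · rw [len_trans, len_trans, len_symm, hp1]
    have hsum : ∑ i, len (l i) ≤ ENNReal.ofReal (K * (6 * D)) := by
      calc ∑ i, len (l i) ≤ ∑ _i : Fin K, ENNReal.ofReal (6 * D) :=
            Finset.sum_le_sum fun i _ => hl1 i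
        _ = ENNReal.ofReal (K * (6 * D)) := by
          rw [Finset.sum_const, Finset.card_univ, Fintype.card_fin, nsmul_eq_mul,
            ENNReal.ofReal_mul (by positivity : (0 : ℝ) ≤ (K : ℝ)), ENNReal.ofReal_natCast]
    calc len (c x) + ∑ i, len (l i) + len (c y)
        ≤ ENNReal.ofReal (2 * D) + ENNReal.ofReal (K * (6 * D)) + ENNReal.ofReal (2 * D) :=
          add_le_add (add_le_add (hcl x) hsum) (hcl y)
      _ = ENNReal.ofReal (2 * D + K * (6 * D) + 2 * D) := by
          rw [← ENNReal.ofReal_add (by positivity) (by positivity),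
            ← ENNReal.ofReal_add (by positivity) (by positivity)]
      _ ≤ _ := by
          refine ENNReal.ofReal_le_ofReal ?_
          rw [Nat.card_eq_fintype_card]
          have hcard : (1 : ℝ) ≤ (Fintype.card (H1 x₀) : ℝ) := by
            have : 0 < Fintype.card (H1 x₀) := Fintype.card_pos
            exact_mod_cast this
          have hlog : 0 ≤ Real.log (Fintype.card (H1 x₀)) := Real.log_nonneg hcard
          have he1 : (1 : ℝ) ≤ (e : ℝ) := by exact_mod_cast he
          have h5 : (1 : ℝ) ≤ e * (1 + Real.log (Fintype.card (H1 x₀))) := by nlinarith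
          have h6 : (2 + K * 6 + 2 : ℝ) ≤ 13 * e * (1 + Real.log (Fintype.card (H1 x₀))) := by
            nlinarith
          calc 2 * D + K * (6 * D) + 2 * D = (2 + K * 6 + 2 : ℝ) * D := by ring
            _ ≤ 13 * e * (1 + Real.log (Fintype.card (H1 x₀))) * D :=
              mul_le_mul_of_nonneg_right h6 hD.le

end Pool.Agent.H793.AB
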