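import Pool.Agent.H793.AB.Defs

set_option autoImplicit false

open Set Metric Topology Finset
open scoped Pointwise unitInterval

namespace Pool.Agent.H793.AB

universe u v

/-- B1: rounding real coefficients to integers with a small error in a Euclidean norm -/
theorem rounding {ι : Type u} {V : Type v} [NormedAddCommGroup V] [InnerProductSpace ℝ V]
    (v : ι → V) (t : ι → ℝ) (s : Finset ι) :
    ∃ n : ι → ℤ, ‖∑ i ∈ s, (t i - (n i : ℝ)) • v i‖ ^ 2 ≤ (1 / 4) * ∑ i ∈ s, ‖v i‖ ^ 2 := by
  classical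
  induction s using Finset.induction_on with
  | empty => exact ⟨fun _ => 0, by simp⟩
  | insert a s ha ih =>
    obtain ⟨n, hn⟩ := ih
    have key : ∀ m : ℤ, ∑ i ∈ insert a s,
        (t i - ((Function.update n a m i : ℤ) : ℝ)) • v i =
        (∑ i ∈ s, (t i - (n i : ℝ)) • v i) + (t a - (m : ℝ)) • v a := by
      intro m
      rw [Finset.sum_insert ha, add_comm, Function.update_self]
      congr 1
      refine Finset.sum_congr rfl fun i hi => ?_
      have hne : i ≠ a := by
        intro h
        rw [h] at hi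
        exact ha hi
      rw [Function.update_of_ne hne]
    set w : V := ∑ i ∈ s, (t i - (n i : ℝ)) • v i with hw
    have hexp : ∀ c : ℝ, ‖w + c • v a‖ ^ 2 =
        ‖w‖ ^ 2 + 2 * c * inner ℝ w (v a) + c ^ 2 * ‖v a‖ ^ 2 := by
      intro c
      rw [norm_add_sq_real, real_inner_smul_right, norm_smul, mul_pow, Real.norm_eq_abs, sq_abs]
      ring
    have hf0 : 0 ≤ Int.fract (t a) := Int.fract_nonneg _
    have hf1 : Int.fract (t a) < 1 := Int.fract_lt_one _
    have hq : 0 ≤ ‖v a‖ ^ 2 := sq_nonneg _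
    have hfl : t a - (⌊t a⌋ : ℝ) = Int.fract (t a) := rfl
    set f : ℝ := Int.fract (t a) with hf
    set Q : ℝ := ‖v a‖ ^ 2 with hQ
    set J : ℝ := inner ℝ w (v a) with hJ
    have hquart : f * (1 - f) * Q ≤ 1 / 4 * Q := by
      refine mul_le_mul_of_nonneg_right ?_ hq
      nlinarith [sq_nonneg (f - 1 / 2)]
    rw [Finset.sum_insert ha]
    rcases le_total (2 * J + 2 * f * Q - Q) 0 with h | h
    · refine ⟨Function.update n a ⌊t a⌋, ?_⟩
      rw [key, hfl, hexp]
      have h1 : f * (2 * J + 2 * f * Q - Q) ≤ 0 := mul_nonpos_of_nonneg_of_nonpos hf0 h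
      nlinarith
    · refine ⟨Function.update n a (⌊t a⌋ + 1), ?_⟩
      have h2 : t a - ((⌊t a⌋ + 1 : ℤ) : ℝ) = f - 1 := by
        push_cast
        rw [← hfl]
        ring
      rw [key, h2, hexp]
      have h1 : (f - 1) * (2 * J + 2 * f * Q - Q) ≤ 0 :=
        mul_nonpos_of_nonpos_of_nonneg (by linarith) h
      nlinarith

end Pool.Agent.H793.AB
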