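import Pool.Agent.H793.AB.Defs

set_option autoImplicit false

open Set Metric Topology Finset
open scoped Pointwise unitInterval

namespace Pool.Agent.H793.AB

universe u

variable {X : Type u} [MetricSpace X]

theorem s2a_tele {θ : X → X → ℝ} {δ : ℝ} (hδ : 0 < δ) (hθ : Coc θ δ) (a : ℕ → X) :
    ∀ m : ℕ, (∀ j l, j ≤ m → l ≤ m → dist (a j) (a l) < δ) →
      ∑ j ∈ Finset.range m, θ (a j) (a (j + 1)) = θ (a 0) (a m) := by
  intro m
  induction m with
  | zero =>
    intro _
    have h0 : dist (a 0) (a 0) < δ := by rw [dist_self]; exact hδ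
    have h := hθ (a 0) (a 0) (a 0) h0 h0 h0
    rw [Finset.sum_range_zero]
    linarith
  | succ m ih =>
    intro h
    rw [Finset.sum_range_succ, ih fun j l hj hl => h j l (by omega) (by omega)]
    exact (hθ (a 0) (a m) (a (m + 1)) (h 0 m (by omega) (by omega))
      (h m (m + 1) (by omega) (by omega)) (h 0 (m + 1) (by omega) (by omega))).symm

theorem s2a_regroup (g : ℕ → ℝ) (m : ℕ) : ∀ n : ℕ,
    ∑ k ∈ Finset.range (n * m), g k =
      ∑ i ∈ Finset.range n, ∑ j ∈ Finset.range m, g (i * m + j) := by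
  intro n
  induction n with
  | zero => simp
  | succ n ih =>
    rw [Nat.succ_mul, Finset.sum_range_add, Finset.sum_range_succ, ih]

theorem s2a_pt (n m i : ℕ) (hm : 0 < m) : pt (n * m) (i * m) = pt n i := by
  unfold pt
  have h : ((i * m : ℕ) : ℝ) / ((n * m : ℕ) : ℝ) = (i : ℝ) / n := by
    push_cast
    have hm' : (m : ℝ) ≠ 0 := by exact_mod_cast hm.ne'
    exact mul_div_mul_right _ _ hm'
  rw [h]

theorem s2a_dist (n i l : ℕ) : dist (pt n i) (pt n l) ≤ |(i : ℝ) / n - (l : ℝ) / n| := by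
  unfold pt
  have h := (LipschitzWith.projIcc (zero_le_one : (0 : ℝ) ≤ 1)).dist_le_mul ((i : ℝ) / n) ((l : ℝ) / n)
  rw [NNReal.coe_one, one_mul, Real.dist_eq] at h
  exact h

/-- T2a: the sums along subdivisions are eventually constant -/
theorem sm_const {θ : X → X → ℝ} {δ : ℝ} (hδ : 0 < δ) (hθ : Coc θ δ) {x y : X} (γ : Path x y) :
    ∃ N : ℕ, 0 < N ∧ ∀ n ≥ N, ∀ m ≥ N, sm θ γ n = sm θ γ m := by
  have huc : UniformContinuous (fun t : I => γ t) :=
    CompactSpace.uniformContinuous_of_continuous γ.continuous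
  obtain ⟨ε, hε, h⟩ := Metric.uniformContinuous_iff.1 huc δ hδ
  obtain ⟨N, hN⟩ := exists_nat_one_div_lt hε
  refine ⟨N + 1, Nat.succ_pos N, ?_⟩
  have key : ∀ n m : ℕ, N + 1 ≤ n → 0 < m → sm θ γ (n * m) = sm θ γ n := by
    intro n m hn hm
    have hn0 : (0 : ℝ) < n := by
      have : 0 < n := by omega
      exact_mod_cast this
    have hm0 : (0 : ℝ) < m := by exact_mod_cast hm
    unfold sm
    rw [s2a_regroup (fun k => θ (γ (pt (n * m) k)) (γ (pt (n * m) (k + 1)))) m n]
    refine Finset.sum_congr rfl fun i _ => ?_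
    have ht := s2a_tele hδ hθ (fun j => γ (pt (n * m) (i * m + j))) m ?_
    · have e0 : pt (n * m) (i * m + 0) = pt n i := by
        rw [add_zero]
        exact s2a_pt n m i hm
      have e1 : pt (n * m) (i * m + m) = pt n (i + 1) := by
        rw [← Nat.succ_mul]
        exact s2a_pt n m (i + 1) hm
      simp only [e0, e1] at ht
      rw [← ht]
      rfl
    · intro j l hj hl
      apply h
      refine lt_of_le_of_lt (s2a_dist (n * m) (i * m + j) (i * m + l)) (lt_of_le_of_lt ?_ hN)
      have e2 : (((i * m + j : ℕ) : ℝ) / ((n * m : ℕ) : ℝ) - ((i * m + l : ℕ) : ℝ) / ((n * m : ℕ) : ℝ)) =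
          ((j : ℝ) - l) / (n * m) := by
        push_cast
        rw [← sub_div]
        congr 1
        ring
      rw [e2, abs_div, abs_of_pos (mul_pos hn0 hm0)]
      have e3 : |(j : ℝ) - l| ≤ m := by
        have hj' : (j : ℝ) ≤ m := by exact_mod_cast hj
        have hl' : (l : ℝ) ≤ m := by exact_mod_cast hl
        have hj0 : (0 : ℝ) ≤ j := Nat.cast_nonneg j
        have hl0 : (0 : ℝ) ≤ l := Nat.cast_nonneg l
        rw [abs_le]
        constructor <;> linarith
      have e4 : |(j : ℝ) - l| / (n * m) ≤ 1 / n := by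
        rw [div_le_div_iff₀ (mul_pos hn0 hm0) hn0]
        have := mul_le_mul_of_nonneg_right e3 hn0.le
        linarith
      refine e4.trans ?_
      apply one_div_le_one_div_of_le
      · positivity
      · exact_mod_cast hn
  intro n hn m hm
  rw [← key n m hn (by omega), ← key m n hm (by omega), mul_comm]

end Pool.Agent.H793.AB
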