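import Pool.Agent.H793.AB.Defs

set_option autoImplicit false

open Set Metric Topology Finset
open scoped Pointwise unitInterval

namespace Pool.Agent.H793.AB

universe u

variable {X : Type u} [MetricSpace X]

theorem S2b_coc_self {θ : X → X → ℝ} {δ : ℝ} (hδ : 0 < δ) (hθ : Coc θ δ) (x : X) : θ x x = 0 := by
  have h := hθ x x x (by simpa using hδ) (by simpa using hδ) (by simpa using hδ)
  linarith

theorem S2b_pt_zero (n : ℕ) : pt n 0 = 0 := by
  unfold pt
  simp only [Nat.cast_zero, zero_div]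
  exact Set.projIcc_left _

theorem S2b_pt_self {n : ℕ} (hn : 0 < n) : pt n n = 1 := by
  unfold pt
  rw [div_self (by exact_mod_cast hn.ne')]
  exact Set.projIcc_right _

theorem S2b_dist_pt {n : ℕ} {η : ℝ} (hn : 0 < n) (hη : 1 < η * n) (i j : ℕ)
    (hij : |(i : ℝ) - j| ≤ 1) : dist (pt n i) (pt n j) < η := by
  have hn0 : (0 : ℝ) < n := by exact_mod_cast hn
  have h1 : dist (pt n i) (pt n j) ≤ |(i : ℝ) / n - (j : ℝ) / n| := by
    rw [Subtype.dist_eq, Real.dist_eq]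
    exact Set.abs_projIcc_sub_projIcc _
  refine lt_of_le_of_lt h1 ?_
  rw [← sub_div, abs_div, abs_of_pos hn0, div_lt_iff₀ hn0]
  exact lt_of_le_of_lt hij hη

/-- T2b: homotopy invariance -/
theorem sm_homotopic {θ : X → X → ℝ} {δ : ℝ} (hδ : 0 < δ) (hθ : Coc θ δ) {x y : X}
    {γ γ' : Path x y} (h : γ.Homotopic γ') : ∃ N : ℕ, ∀ n ≥ N, sm θ γ n = sm θ γ' n := by
  obtain ⟨F⟩ := h
  have huc : UniformContinuous (fun p : I × I => F p) :=
    CompactSpace.uniformContinuous_of_continuous F.continuous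
  obtain ⟨η, hη, hF⟩ := Metric.uniformContinuous_iff.1 huc δ hδ
  obtain ⟨N, hN⟩ := exists_nat_gt (1 / η)
  refine ⟨N + 1, fun n hn => ?_⟩
  have hn1 : 0 < n := by omega
  have hηn : 1 < η * n := by
    have h1 : (N : ℝ) < n := by exact_mod_cast (by omega : N < n)
    have h2 : 1 / η < n := hN.trans h1
    rw [div_lt_iff₀ hη] at h2
    linarith
  have hd : ∀ k i k' i' : ℕ, |(k : ℝ) - k'| ≤ 1 → |(i : ℝ) - i'| ≤ 1 →
      dist (F (pt n k, pt n i)) (F (pt n k', pt n i')) < δ := by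
    intro k i k' i' h1 h2
    apply hF
    rw [Prod.dist_eq]
    exact max_lt (S2b_dist_pt hn1 hηn _ _ h1) (S2b_dist_pt hn1 hηn _ _ h2)
  have hstep : ∀ k : ℕ,
      ∑ i ∈ Finset.range n, θ (F (pt n k, pt n i)) (F (pt n k, pt n (i + 1))) =
      ∑ i ∈ Finset.range n, θ (F (pt n (k + 1), pt n i)) (F (pt n (k + 1), pt n (i + 1))) := by
    intro k
    have e1 : |(k : ℝ) - k| ≤ 1 := by simp
    have e2 : |(k : ℝ) - ((k + 1 : ℕ) : ℝ)| ≤ 1 := by push_cast; simp
    have key : ∀ i ∈ Finset.range n,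
        θ (F (pt n k, pt n i)) (F (pt n k, pt n (i + 1))) -
          θ (F (pt n (k + 1), pt n i)) (F (pt n (k + 1), pt n (i + 1))) =
        θ (F (pt n k, pt n i)) (F (pt n (k + 1), pt n i)) -
          θ (F (pt n k, pt n (i + 1))) (F (pt n (k + 1), pt n (i + 1))) := by
      intro i _
      have f1 : |(i : ℝ) - i| ≤ 1 := by simp
      have f2 : |(i : ℝ) - ((i + 1 : ℕ) : ℝ)| ≤ 1 := by push_cast; simp
      have f3 : |((i + 1 : ℕ) : ℝ) - ((i + 1 : ℕ) : ℝ)| ≤ 1 := by simp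
      have e3 : |((k + 1 : ℕ) : ℝ) - ((k + 1 : ℕ) : ℝ)| ≤ 1 := by simp
      have g1 := hθ (F (pt n k, pt n i)) (F (pt n k, pt n (i + 1)))
        (F (pt n (k + 1), pt n (i + 1))) (hd _ _ _ _ e1 f2) (hd _ _ _ _ e2 f3) (hd _ _ _ _ e2 f2)
      have g2 := hθ (F (pt n k, pt n i)) (F (pt n (k + 1), pt n i))
        (F (pt n (k + 1), pt n (i + 1))) (hd _ _ _ _ e2 f1) (hd _ _ _ _ e3 f2) (hd _ _ _ _ e2 f2)
      linarith
    have hsum := Finset.sum_congr rfl key
    rw [Finset.sum_sub_distrib] at hsum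
    rw [Finset.sum_range_sub' (fun i => θ (F (pt n k, pt n i)) (F (pt n (k + 1), pt n i)))] at hsum
    rw [S2b_pt_zero, S2b_pt_self hn1] at hsum
    have z1 : ∀ t : I, F (t, 0) = x := fun t => F.source t
    have z2 : ∀ t : I, F (t, 1) = y := fun t => F.target t
    simp only [z1, z2, S2b_coc_self hδ hθ] at hsum
    linarith
  have hall : ∀ k : ℕ,
      ∑ i ∈ Finset.range n, θ (F (pt n 0, pt n i)) (F (pt n 0, pt n (i + 1))) =
      ∑ i ∈ Finset.range n, θ (F (pt n k, pt n i)) (F (pt n k, pt n (i + 1))) := by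
    intro k
    induction k with
    | zero => rfl
    | succ k ih => exact ih.trans (hstep k)
  have hfin := hall n
  rw [S2b_pt_zero, S2b_pt_self hn1] at hfin
  have w1 : ∀ t : I, F (0, t) = γ t := fun t => F.apply_zero t
  have w2 : ∀ t : I, F (1, t) = γ' t := fun t => F.apply_one t
  simp only [w1, w2] at hfin
  exact hfin

end Pool.Agent.H793.AB
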