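import Pool.Agent.H793.AB.Defs

set_option autoImplicit false

open Set Metric Topology Finset
open scoped Pointwise unitInterval

namespace Pool.Agent.H793.AB

universe u

variable {X : Type u} [MetricSpace X]

theorem S2c_pt_coe {n i : ℕ} (hn : 1 ≤ n) (h : i ≤ n) : ((pt n i : I) : ℝ) = (i : ℝ) / n := by
  have hn0 : (0 : ℝ) < n := by exact_mod_cast hn
  have h1 : (i : ℝ) / n ∈ Set.Icc (0 : ℝ) 1 :=
    ⟨by positivity, by rw [div_le_one hn0]; exact_mod_cast h⟩
  unfold pt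
  rw [Set.projIcc_of_mem _ h1]

theorem S2c_first {x y z : X} (γ : Path x y) (γ' : Path y z) {n i : ℕ} (hn : 1 ≤ n) (h : i ≤ n) :
    (γ.trans γ') (pt (2 * n) i) = γ (pt n i) := by
  have hn0 : (0 : ℝ) < n := by exact_mod_cast hn
  have h1 : ((pt (2 * n) i : I) : ℝ) = (i : ℝ) / ((2 * n : ℕ) : ℝ) :=
    S2c_pt_coe (by omega) (by omega)
  have h2 : ((pt n i : I) : ℝ) = (i : ℝ) / n := S2c_pt_coe hn h
  have hi : (i : ℝ) ≤ n := by exact_mod_cast h
  have h3 : 2 * ((pt (2 * n) i : I) : ℝ) = ((pt n i : I) : ℝ) := by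
    rw [h1, h2]
    push_cast
    field_simp
  have h4 : ((pt (2 * n) i : I) : ℝ) ≤ 1 / 2 := by
    have h5 : ((pt n i : I) : ℝ) ≤ 1 := (pt n i).2.2
    linarith
  rw [Path.trans_apply, dif_pos h4]
  exact congrArg γ (Subtype.ext h3)

theorem S2c_second {x y z : X} (γ : Path x y) (γ' : Path y z) {n k : ℕ} (hn : 1 ≤ n) (h : k ≤ n) :
    (γ.trans γ') (pt (2 * n) (n + k)) = γ' (pt n k) := by
  have hn0 : (0 : ℝ) < n := by exact_mod_cast hn
  rcases Nat.eq_zero_or_pos k with rfl | hk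
  · rw [Nat.add_zero, S2c_first γ γ' hn le_rfl]
    have h1 : pt n n = 1 := by
      refine Subtype.ext ?_
      rw [S2c_pt_coe hn le_rfl, div_self hn0.ne']
      rfl
    have h2 : pt n 0 = 0 := by
      refine Subtype.ext ?_
      rw [S2c_pt_coe hn (Nat.zero_le n), Nat.cast_zero, zero_div]
      rfl
    rw [h1, h2, γ.target, γ'.source]
  · have h1 : ((pt (2 * n) (n + k) : I) : ℝ) = ((n + k : ℕ) : ℝ) / ((2 * n : ℕ) : ℝ) :=
      S2c_pt_coe (by omega) (by omega)
    have h2 : ((pt n k : I) : ℝ) = (k : ℝ) / n := S2c_pt_coe hn h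
    have h3 : 2 * ((pt (2 * n) (n + k) : I) : ℝ) - 1 = ((pt n k : I) : ℝ) := by
      rw [h1, h2]
      push_cast
      field_simp
      ring
    have h4 : ¬ ((pt (2 * n) (n + k) : I) : ℝ) ≤ 1 / 2 := by
      have h5 : (0 : ℝ) < ((pt n k : I) : ℝ) := by
        rw [h2]
        have : (0 : ℝ) < k := by exact_mod_cast hk
        positivity
      intro h6
      linarith
    rw [Path.trans_apply, dif_neg h4]
    exact congrArg γ' (Subtype.ext h3)

/-- T2c: concatenation -/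
theorem sm_trans {θ : X → X → ℝ} {δ : ℝ} (hδ : 0 < δ) (hθ : Coc θ δ) {x y z : X}
    (γ : Path x y) (γ' : Path y z) :
    ∃ N : ℕ, ∀ n ≥ N, sm θ (γ.trans γ') (2 * n) = sm θ γ n + sm θ γ' n := by
  refine ⟨1, fun n hn => ?_⟩
  unfold sm
  have h0 : Finset.range (2 * n) = Finset.range (n + n) := by rw [two_mul]
  rw [h0, Finset.sum_range_add]
  refine congrArg₂ (· + ·) ?_ ?_
  · refine Finset.sum_congr rfl fun i hi => ?_
    rw [Finset.mem_range] at hi
    rw [S2c_first γ γ' hn (by omega), S2c_first γ γ' hn (by omega)]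
  · refine Finset.sum_congr rfl fun i hi => ?_
    rw [Finset.mem_range] at hi
    rw [add_assoc, S2c_second γ γ' hn (by omega), S2c_second γ γ' hn (by omega)]

end Pool.Agent.H793.AB
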