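import Pool.Agent.H793.AB.S2a
import Pool.Agent.H793.AB.S2b
import Pool.Agent.H793.AB.S2c
import Pool.Agent.H793.AB.Cl

set_option autoImplicit false

open Set Metric Topology Finset
open scoped Pointwise unitInterval

namespace Pool.Agent.H793.AB

universe u

variable {X : Type u} [MetricSpace X]

/-- The eventual value of the sums along the subdivisions of a path. -/
noncomputable def phi {θ : X → X → ℝ} {δ : ℝ} (hδ : 0 < δ) (hθ : Coc θ δ) {x y : X}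
    (γ : Path x y) : ℝ := sm θ γ (sm_const hδ hθ γ).choose

theorem phi_spec {θ : X → X → ℝ} {δ : ℝ} (hδ : 0 < δ) (hθ : Coc θ δ) {x y : X}
    (γ : Path x y) : ∃ N : ℕ, ∀ n ≥ N, sm θ γ n = phi hδ hθ γ :=
  ⟨(sm_const hδ hθ γ).choose, fun n hn => (sm_const hδ hθ γ).choose_spec.2 n hn _ le_rfl⟩

theorem phi_homotopic {θ : X → X → ℝ} {δ : ℝ} (hδ : 0 < δ) (hθ : Coc θ δ) {x y : X}
    {γ γ' : Path x y} (h : γ.Homotopic γ') : phi hδ hθ γ = phi hδ hθ γ' := by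
  obtain ⟨N₁, h₁⟩ := phi_spec hδ hθ γ
  obtain ⟨N₂, h₂⟩ := phi_spec hδ hθ γ'
  obtain ⟨N₃, h₃⟩ := sm_homotopic hδ hθ h
  have e1 := h₁ (max N₁ (max N₂ N₃)) (le_max_left _ _)
  have e2 := h₂ (max N₁ (max N₂ N₃)) ((le_max_left _ _).trans (le_max_right _ _))
  have e3 := h₃ (max N₁ (max N₂ N₃)) ((le_max_right _ _).trans (le_max_right _ _))
  rw [← e1, ← e2, e3]

theorem phi_trans {θ : X → X → ℝ} {δ : ℝ} (hδ : 0 < δ) (hθ : Coc θ δ) {x y z : X}
    (γ : Path x y) (γ' : Path y z) :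
    phi hδ hθ (γ.trans γ') = phi hδ hθ γ + phi hδ hθ γ' := by
  obtain ⟨N₁, h₁⟩ := phi_spec hδ hθ γ
  obtain ⟨N₂, h₂⟩ := phi_spec hδ hθ γ'
  obtain ⟨N₃, h₃⟩ := phi_spec hδ hθ (γ.trans γ')
  obtain ⟨N₄, h₄⟩ := sm_trans hδ hθ γ γ'
  have a1 : N₁ ≤ N₁ + N₂ + N₃ + N₄ := by omega
  have a2 : N₂ ≤ N₁ + N₂ + N₃ + N₄ := by omega
  have a3 : N₃ ≤ 2 * (N₁ + N₂ + N₃ + N₄) := by omega
  have a4 : N₄ ≤ N₁ + N₂ + N₃ + N₄ := by omega
  rw [← h₁ _ a1, ← h₂ _ a2, ← h₃ _ a3, h₄ _ a4]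

/-- The eventual value, on the fundamental group. -/
noncomputable def phiQ {θ : X → X → ℝ} {δ : ℝ} (hδ : 0 < δ) (hθ : Coc θ δ) (x₀ : X)
    (q : Path.Homotopic.Quotient x₀ x₀) : ℝ :=
  _root_.Quotient.lift (fun γ : Path x₀ x₀ => phi hδ hθ γ) (fun _ _ h => phi_homotopic hδ hθ h) q

theorem phiQ_mk {θ : X → X → ℝ} {δ : ℝ} (hδ : 0 < δ) (hθ : Coc θ δ) {x₀ : X}
    (γ : Path x₀ x₀) : phiQ hδ hθ x₀ (Path.Homotopic.Quotient.mk γ) = phi hδ hθ γ := rfl

theorem phiQ_trans {θ : X → X → ℝ} {δ : ℝ} (hδ : 0 < δ) (hθ : Coc θ δ) {x₀ : X}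
    (p q : Path.Homotopic.Quotient x₀ x₀) :
    phiQ hδ hθ x₀ (p.trans q) = phiQ hδ hθ x₀ p + phiQ hδ hθ x₀ q := by
  induction p using Path.Homotopic.Quotient.ind with
  | mk a =>
    induction q using Path.Homotopic.Quotient.ind with
    | mk b =>
      rw [← Path.Homotopic.Quotient.mk_trans, phiQ_mk, phiQ_mk, phiQ_mk, phi_trans]

/-- The homomorphism from the fundamental group. -/
noncomputable def phiHom {θ : X → X → ℝ} {δ : ℝ} (hδ : 0 < δ) (hθ : Coc θ δ) (x₀ : X) :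
    FundamentalGroup X x₀ →* Multiplicative ℝ :=
  MonoidHom.mk' (fun p => Multiplicative.ofAdd (phiQ hδ hθ x₀ (FundamentalGroup.toPath p)))
    (fun p q => by
      have h : phiQ hδ hθ x₀ (FundamentalGroup.toPath (p * q)) =
          phiQ hδ hθ x₀ (FundamentalGroup.toPath q) +
            phiQ hδ hθ x₀ (FundamentalGroup.toPath p) :=
        phiQ_trans hδ hθ (FundamentalGroup.toPath q) (FundamentalGroup.toPath p)
      rw [h, ofAdd_add, mul_comm])

/-- T2d: if `H_1` is finite, the sums along loops are zero (uses T2a, T2b, T2c) -/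
theorem sm_loop_zero {θ : X → X → ℝ} {δ : ℝ} (hδ : 0 < δ) (hθ : Coc θ δ) (x₀ : X)
    [Finite (H1 x₀)] (γ : Path x₀ x₀) : ∃ N : ℕ, ∀ n ≥ N, sm θ γ n = 0 := by
  have hz : phi hδ hθ γ = 0 := by
    have hfin : Finite (Abelianization (FundamentalGroup X x₀)) :=
      inferInstanceAs (Finite (H1 x₀))
    have h1 : (Abelianization.of
        (FundamentalGroup.fromPath (Path.Homotopic.Quotient.mk γ))) ^
          Nat.card (Abelianization (FundamentalGroup X x₀)) = 1 := pow_card_eq_one'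
    have h2 := congrArg (Abelianization.lift (phiHom hδ hθ x₀)) h1
    rw [map_pow, map_one, Abelianization.lift_apply_of] at h2
    have h3 : phiHom hδ hθ x₀ (FundamentalGroup.fromPath (Path.Homotopic.Quotient.mk γ)) =
        Multiplicative.ofAdd (phi hδ hθ γ) := rfl
    rw [h3, ← ofAdd_nsmul] at h2
    have h4 : Nat.card (Abelianization (FundamentalGroup X x₀)) • phi hδ hθ γ = 0 :=
      Multiplicative.ofAdd.injective h2
    rw [nsmul_eq_mul, mul_eq_zero, Nat.cast_eq_zero] at h4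
    rcases h4 with h4 | h4
    · exact absurd h4 Nat.card_pos.ne'
    · exact h4
  obtain ⟨N, hN⟩ := phi_spec hδ hθ γ
  exact ⟨N, fun n hn => (hN n hn).trans hz⟩

end Pool.Agent.H793.AB
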