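import Pool.Agent.H793.AB.Rd
import Pool.Agent.H793.AB.Ds

set_option autoImplicit false

open Set Metric Topology Finset
open scoped Pointwise unitInterval

namespace Pool.Agent.H793.AB

universe u

variable {G : Type u} [AddCommGroup G] [Fintype G] [DecidableEq G]

theorem sp_gen (S : Finset G) (hgen : AddSubgroup.closure (S : Set G) = ⊤) (Λ : Finset G)
    (ε : G → G → ℤ) (hε : ∀ s ∈ S, ∑ x ∈ Λ, ε s x • x = s) (g : G) :
    ∃ y : G → ℤ, ∑ x ∈ Λ, y x • x = g := by
  have hg : g ∈ AddSubgroup.closure (S : Set G) := by rw [hgen]; exact AddSubgroup.mem_top g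
  induction hg using AddSubgroup.closure_induction with
  | mem x hx => exact ⟨ε x, hε x hx⟩
  | zero => exact ⟨0, by simp⟩
  | add x y _ _ hx hy =>
    obtain ⟨a, ha⟩ := hx
    obtain ⟨b, hb⟩ := hy
    refine ⟨fun x => a x + b x, ?_⟩
    simp only [add_smul, Finset.sum_add_distrib, ha, hb]
  | neg x _ hx =>
    obtain ⟨a, ha⟩ := hx
    exact ⟨fun x => -a x, by simp only [neg_smul, Finset.sum_neg_distrib, ha]⟩

/-- B3: every element is a combination of a dissociated set with small `ℓ²` norm -/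
theorem exists_l2 (S : Finset G) (hgen : AddSubgroup.closure (S : Set G) = ⊤)
    (hθ : ∀ θ : G → ℝ, (∀ a ∈ S, ∀ b ∈ S, a + b ∈ S → θ (a + b) = θ a + θ b) →
      ∀ s ∈ S, θ s = 0) :
    ∃ Λ : Finset G, Λ ⊆ S ∧ 2 ^ Λ.card ≤ Fintype.card G ∧
      ∀ g : G, ∃ n : G → ℤ, ∑ x ∈ Λ, n x • x = g ∧
        (∑ x ∈ Λ, (n x : ℝ) ^ 2) ≤ (9 / 4) * (Λ.card : ℝ) ^ 2 := by
  classical
  obtain ⟨Λ, hΛS, hcard, ε, hε⟩ := exists_dissoc S
  refine ⟨Λ, hΛS, hcard, fun g => ?_⟩
  obtain ⟨y, hy⟩ := sp_gen S hgen Λ ε (fun s hs => (hε s hs).2.1) g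
  let ι : Type u := {p : G × G // p.1 ∈ S ∧ p.2 ∈ S ∧ p.1 + p.2 ∈ S}
  let N : ι → G → ℤ := fun i x => ε i.1.1 x + ε i.1.2 x - ε (i.1.1 + i.1.2) x
  let M : ι → EuclideanSpace ℝ Λ := fun i => WithLp.toLp 2 (fun x : Λ => (N i x : ℝ))
  have hspan : Submodule.span ℝ (Set.range M) = ⊤ := by
    by_contra hne
    obtain ⟨f, hf, hle⟩ := Submodule.exists_le_ker_of_lt_top _ (lt_top_iff_ne_top.2 hne)
    let E : G → EuclideanSpace ℝ Λ := fun s => WithLp.toLp 2 (fun x : Λ => (ε s x : ℝ))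
    have hθ' := hθ (fun s => f (E s)) (by
      intro a ha b hb hab
      have h1 : f (M ⟨(a, b), ha, hb, hab⟩) = 0 := hle (Submodule.subset_span ⟨_, rfl⟩)
      have h2 : M ⟨(a, b), ha, hb, hab⟩ = E a + E b - E (a + b) := by
        ext x
        simp [M, N, E]
      rw [h2, map_sub, map_add] at h1
      show f (E (a + b)) = f (E a) + f (E b)
      linarith)
    apply hf
    apply (EuclideanSpace.basisFun Λ ℝ).toBasis.ext
    intro x
    have h3 : f (E x) = 0 := hθ' x (hΛS x.2)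
    have h4 : (EuclideanSpace.basisFun Λ ℝ).toBasis x = E x := by
      ext j
      simp only [E, OrthonormalBasis.coe_toBasis, EuclideanSpace.basisFun_apply,
        (hε x (hΛS x.2)).2.2 x.2, EuclideanSpace.single_apply]
      by_cases hj : j = x
      · simp [hj]
      · have hj' : (j : G) ≠ x := fun h => hj (Subtype.ext h)
        simp [hj, hj']
    rw [h4, h3]
    simp
  obtain ⟨κ, a, ha, hsp, hli⟩ := exists_linearIndependent' ℝ M
  haveI : Fintype κ := Fintype.ofInjective a ha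
  have hκ : Fintype.card κ ≤ Λ.card := by
    have := hli.fintype_card_le_finrank
    rwa [finrank_euclideanSpace, Fintype.card_coe] at this
  have hmem : (WithLp.toLp 2 (fun x : Λ => (y x : ℝ)) : EuclideanSpace ℝ Λ) ∈
      Submodule.span ℝ (Set.range (M ∘ a)) := by
    rw [hsp, hspan]
    trivial
  obtain ⟨t, ht⟩ := (Submodule.mem_span_range_iff_exists_fun ℝ).1 hmem
  obtain ⟨n, hn⟩ := rounding (M ∘ a) t Finset.univ
  refine ⟨fun x => y x - ∑ i, n i * N (a i) x, ?_, ?_⟩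
  · have h0 : ∀ i : ι, ∑ x ∈ Λ, N i x • x = 0 := by
      intro i
      simp only [N, sub_smul, add_smul, Finset.sum_sub_distrib, Finset.sum_add_distrib]
      rw [(hε _ i.2.1).2.1, (hε _ i.2.2.1).2.1, (hε _ i.2.2.2).2.1, sub_self]
    simp only [sub_smul, Finset.sum_sub_distrib, hy, Finset.sum_smul, mul_smul]
    rw [Finset.sum_comm]
    have h1 : ∀ i : κ, ∑ x ∈ Λ, n i • N (a i) x • x = 0 := by
      intro i
      rw [← Finset.smul_sum, h0, smul_zero]
    rw [Finset.sum_congr rfl fun i _ => h1 i, Finset.sum_const_zero, sub_zero]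
  · have h1 : ∑ i, (t i - (n i : ℝ)) • (M ∘ a) i =
        (WithLp.toLp 2 (fun x : Λ => ((y x - ∑ i, n i * N (a i) x : ℤ) : ℝ)) :
          EuclideanSpace ℝ Λ) := by
      simp only [sub_smul, Finset.sum_sub_distrib]
      rw [ht]
      ext x
      simp [M, Function.comp]
    rw [h1, EuclideanSpace.real_norm_sq_eq] at hn
    have h2 : ∑ x ∈ Λ, (((fun x => y x - ∑ i, n i * N (a i) x) x : ℤ) : ℝ) ^ 2 =
        ∑ x : Λ, (WithLp.toLp 2 (fun x : Λ => ((y x - ∑ i, n i * N (a i) x : ℤ) : ℝ)) :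
          EuclideanSpace ℝ Λ).ofLp x ^ 2 := by
      rw [← Finset.sum_coe_sort]
    rw [h2]
    refine hn.trans ?_
    have h3 : ∀ i : ι, ‖M i‖ ^ 2 ≤ 9 * (Λ.card : ℝ) := by
      intro i
      rw [EuclideanSpace.real_norm_sq_eq]
      have h4 : ∀ x : Λ, (M i).ofLp x ^ 2 ≤ 9 := by
        intro x
        show ((N i x : ℤ) : ℝ) ^ 2 ≤ 9
        have h5 : |N i x| ≤ 3 := by
          have b1 := (hε _ i.2.1).1 x
          have b2 := (hε _ i.2.2.1).1 x
          have b3 := (hε _ i.2.2.2).1 x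
          show |ε i.1.1 x + ε i.1.2 x - ε (i.1.1 + i.1.2) x| ≤ 3
          rw [abs_le] at b1 b2 b3 ⊢
          constructor <;> omega
        have h6 : (N i x) ^ 2 ≤ 9 := by
          have := sq_le_sq' (abs_le.1 h5).1 (abs_le.1 h5).2
          norm_num at this
          exact this
        exact_mod_cast h6
      calc ∑ x : Λ, (M i).ofLp x ^ 2 ≤ ∑ x : Λ, (9 : ℝ) := Finset.sum_le_sum fun x _ => h4 x
        _ = 9 * (Λ.card : ℝ) := by
          rw [Finset.sum_const, Finset.card_univ, Fintype.card_coe, nsmul_eq_mul, mul_comm]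
    have h7 : ∑ i : κ, ‖(M ∘ a) i‖ ^ 2 ≤ (Λ.card : ℝ) * (9 * Λ.card) := by
      calc ∑ i : κ, ‖(M ∘ a) i‖ ^ 2 ≤ ∑ i : κ, 9 * (Λ.card : ℝ) :=
            Finset.sum_le_sum fun i _ => h3 (a i)
        _ = (Fintype.card κ : ℝ) * (9 * Λ.card) := by
          rw [Finset.sum_const, Finset.card_univ, nsmul_eq_mul]
        _ ≤ (Λ.card : ℝ) * (9 * Λ.card) := by
          refine mul_le_mul_of_nonneg_right ?_ (by positivity)
          exact_mod_cast hκ
    nlinarith

end Pool.Agent.H793.AB
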